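import Mathlib

open scoped ENNReal
open MeasureTheory Set

noncomputable section

namespace Pool.Agent.CRO

section

variable {Z : Type} [MeasurableSpace Z] (μ : Measure Z) (S : Set Z) (H : ℕ → Set Z)

theorem IGE_split (hH : ∀ k, MeasurableSet (H k)) (hHm : ∀ k, H k ⊆ H (k + 1))
    (k : ℕ) (hk : 1 ≤ k) (g : Z → ℝ≥0∞) :
    ∫⁻ z in S ∩ H k, g z ∂μ = ∫⁻ z in S ∩ H (k - 1), g z ∂μ
      + ∫⁻ z in S ∩ (H k \ H (k - 1)), g z ∂μ := by
  have hsub : H (k - 1) ⊆ H k := by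
    have := hHm (k - 1)
    rwa [Nat.sub_add_cancel hk] at this
  have e1 : S ∩ H k = (S ∩ H (k - 1)) ∪ (S ∩ (H k \ H (k - 1))) := by
    rw [← inter_union_distrib_left, union_diff_cancel hsub]
  have h := lintegral_inter_add_sdiff (μ := μ) g (S ∩ H k) (hH (k - 1))
  rw [← h]
  congr 2
  · congr 1
    rw [inter_assoc, inter_eq_right.2 hsub]
  · congr 1
    ext z
    simp only [mem_inter_iff, mem_diff]
    tauto

theorem IGE_diff (hμS : μ S ≠ ⊤) (hH : ∀ k, MeasurableSet (H k)) (hHm : ∀ k, H k ⊆ H (k + 1))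
    (k : ℕ) (hk : 1 ≤ k) (W : Set Z) :
    μ (S ∩ (H k \ H (k - 1)) ∩ W) =
      ENNReal.ofReal ((μ (S ∩ H k ∩ W)).toReal - (μ (S ∩ H (k - 1) ∩ W)).toReal) := by
  have hsub : H (k - 1) ⊆ H k := by
    have := hHm (k - 1)
    rwa [Nat.sub_add_cancel hk] at this
  have h := measure_inter_add_diff (μ := μ) (S ∩ H k ∩ W) (hH (k - 1))
  have e1 : S ∩ H k ∩ W ∩ H (k - 1) = S ∩ H (k - 1) ∩ W := by
    ext z
    simp only [mem_inter_iff]
    constructor
    · rintro ⟨⟨⟨a, b⟩, c⟩, d⟩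
      exact ⟨⟨a, d⟩, c⟩
    · rintro ⟨⟨a, b⟩, c⟩
      exact ⟨⟨⟨a, hsub b⟩, c⟩, b⟩
  have e2 : (S ∩ H k ∩ W) \ H (k - 1) = S ∩ (H k \ H (k - 1)) ∩ W := by
    ext z
    simp only [mem_inter_iff, mem_diff]
    tauto
  rw [e1, e2] at h
  have f1 : μ (S ∩ H (k - 1) ∩ W) ≠ ⊤ :=
    ne_top_of_le_ne_top hμS (measure_mono (inter_subset_left.trans inter_subset_left))
  have f2 : μ (S ∩ (H k \ H (k - 1)) ∩ W) ≠ ⊤ :=
    ne_top_of_le_ne_top hμS (measure_mono (inter_subset_left.trans inter_subset_left))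
  rw [← h, ENNReal.toReal_add f1 f2, add_sub_cancel_left, ENNReal.ofReal_toReal f2]

theorem IGE_abs (hS : MeasurableSet S) (hμS : μ S ≠ ⊤)
    (hH : ∀ k, MeasurableSet (H k)) (hHm : ∀ k, H k ⊆ H (k + 1))
    (N : ℕ) (J : Z → ℕ) (Sh : ℕ → Set Z) (hSh : ∀ j, MeasurableSet (Sh j))
    (hJ : ∀ z ∈ S, J z ∈ Finset.Icc 1 N ∧ ∀ j ∈ Finset.Icc 1 N, (z ∈ Sh j ↔ J z = j))
    (θ : ℕ → ℝ) (hθ : ∀ j, 0 < θ j) (F g : Z → ℝ≥0∞) (hg : AEMeasurable g (μ.restrict S))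
    (hgfin : ∀ k, k < N → ∫⁻ z in S ∩ H k, g z ∂μ ≠ ⊤) (A B : ℕ → ℝ)
    (hA : ∀ k, 0 ≤ A k) (hB : ∀ k, 0 ≤ B k) (a b : ℝ) (ha : 0 ≤ a) (hb : 0 ≤ b)
    (hpt : ∀ k, 1 ≤ k → k < N → ∀ z ∈ S,
      ENNReal.ofReal (a * A k) * ENNReal.ofReal (θ (J z)) ≤ F z + ENNReal.ofReal (b * B k) * g z) :
    ENNReal.ofReal (a * ∑ k ∈ Finset.Ico 1 N, A k * ∑ j ∈ Finset.Icc 1 N,
        θ j * ((μ (S ∩ H k ∩ Sh j)).toReal - (μ (S ∩ H (k - 1) ∩ Sh j)).toReal)) ≤
      ∫⁻ z in S, F z ∂μ + ENNReal.ofReal (b * ∑ k ∈ Finset.Ico 1 N, B k *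
        ((∫⁻ z in S ∩ H k, g z ∂μ).toReal - (∫⁻ z in S ∩ H (k - 1), g z ∂μ).toReal)) := by
  classical
  -- the classes
  set C : ℕ → Set Z := fun k => S ∩ (H k \ H (k - 1)) with hC
  have hCm : ∀ k, MeasurableSet (C k) := fun k => hS.inter ((hH k).diff (hH (k - 1)))
  have hCS : ∀ k, C k ⊆ S := fun k => inter_subset_left
  -- the differences are nonnegative
  have hmono : ∀ k, H (k - 1) ⊆ H k := by
    intro k
    rcases Nat.eq_zero_or_pos k with rfl | hk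
    · exact subset_rfl
    · have := hHm (k - 1)
      rwa [Nat.sub_add_cancel hk] at this
  have hfinP : ∀ k j, μ (S ∩ H k ∩ Sh j) ≠ ⊤ := fun k j =>
    ne_top_of_le_ne_top hμS (measure_mono (inter_subset_left.trans inter_subset_left))
  have hPnn : ∀ k j, 0 ≤ (μ (S ∩ H k ∩ Sh j)).toReal - (μ (S ∩ H (k - 1) ∩ Sh j)).toReal := by
    intro k j
    rw [sub_nonneg]
    apply ENNReal.toReal_mono (hfinP k j)
    exact measure_mono (inter_subset_inter_left _ (inter_subset_inter_right _ (hmono k)))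
  have hMnn : ∀ k, k < N → 0 ≤ (∫⁻ z in S ∩ H k, g z ∂μ).toReal
      - (∫⁻ z in S ∩ H (k - 1), g z ∂μ).toReal := by
    intro k hk
    rw [sub_nonneg]
    apply ENNReal.toReal_mono (hgfin k hk)
    exact lintegral_mono_set (inter_subset_inter_right _ (hmono k))
  -- the integral of theta over a class
  have hI1 : ∀ k, 1 ≤ k → ∫⁻ z in C k, ENNReal.ofReal (θ (J z)) ∂μ =
      ENNReal.ofReal (∑ j ∈ Finset.Icc 1 N,
        θ j * ((μ (S ∩ H k ∩ Sh j)).toReal - (μ (S ∩ H (k - 1) ∩ Sh j)).toReal)) := by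
    intro k hk
    have e1 : C k = ⋃ j ∈ Finset.Icc 1 N, (C k ∩ Sh j) := by
      ext z
      simp only [mem_iUnion, mem_inter_iff, exists_prop]
      constructor
      · intro hz
        have := hJ z (hCS k hz)
        exact ⟨J z, this.1, hz, (this.2 (J z) this.1).2 rfl⟩
      · rintro ⟨j, -, hz, -⟩
        exact hz
    have hd : Set.PairwiseDisjoint (↑(Finset.Icc 1 N)) (fun j => C k ∩ Sh j) := by
      intro i hi j hj hij
      rw [Function.onFun, Set.disjoint_left]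
      rintro z ⟨hz, hzi⟩ ⟨-, hzj⟩
      have h := (hJ z (hCS k hz)).2
      exact hij (((h i hi).1 hzi).symm.trans ((h j hj).1 hzj))
    rw [e1, lintegral_biUnion_finset hd (fun j _ => (hCm k).inter (hSh j)),
      ENNReal.ofReal_sum_of_nonneg (fun j _ => mul_nonneg (hθ j).le (hPnn k j))]
    refine Finset.sum_congr rfl fun j hj => ?_
    have e2 : ∫⁻ z in C k ∩ Sh j, ENNReal.ofReal (θ (J z)) ∂μ
        = ∫⁻ z in C k ∩ Sh j, ENNReal.ofReal (θ j) ∂μ := by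
      refine setLIntegral_congr_fun ((hCm k).inter (hSh j)) fun z hz => ?_
      have h := ((hJ z (hCS k hz.1)).2 j hj).1 hz.2
      simp only [h]
    rw [e2, setLIntegral_const, ENNReal.ofReal_mul (hθ j).le, IGE_diff μ S H hμS hH hHm k hk]
  have hI2 : ∀ k, 1 ≤ k → k < N → ∫⁻ z in C k, g z ∂μ =
      ENNReal.ofReal ((∫⁻ z in S ∩ H k, g z ∂μ).toReal
        - (∫⁻ z in S ∩ H (k - 1), g z ∂μ).toReal) := by
    intro k hk hkN
    have h := IGE_split μ S H hH hHm k hk g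
    have f1 : ∫⁻ z in S ∩ H (k - 1), g z ∂μ ≠ ⊤ := hgfin (k - 1) (by omega)
    have f2 : ∫⁻ z in C k, g z ∂μ ≠ ⊤ := by
      refine ne_top_of_le_ne_top (hgfin k hkN) (lintegral_mono_set ?_)
      exact inter_subset_inter_right _ diff_subset
    rw [h, ENNReal.toReal_add f1 f2, add_sub_cancel_left, ENNReal.ofReal_toReal f2]
  -- integrate over a class
  have hI3 : ∀ k ∈ Finset.Ico 1 N, ENNReal.ofReal (a * (A k * ∑ j ∈ Finset.Icc 1 N,
        θ j * ((μ (S ∩ H k ∩ Sh j)).toReal - (μ (S ∩ H (k - 1) ∩ Sh j)).toReal))) ≤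
      ∫⁻ z in C k, F z ∂μ + ENNReal.ofReal (b * (B k *
        ((∫⁻ z in S ∩ H k, g z ∂μ).toReal - (∫⁻ z in S ∩ H (k - 1), g z ∂μ).toReal))) := by
    intro k hk
    rw [Finset.mem_Ico] at hk
    rw [← mul_assoc, ← mul_assoc, ENNReal.ofReal_mul (mul_nonneg ha (hA k)),
      ENNReal.ofReal_mul (mul_nonneg hb (hB k)), ← hI1 k hk.1, ← hI2 k hk.1 hk.2,
      ← lintegral_const_mul' _ _ ENNReal.ofReal_ne_top,
      ← lintegral_const_mul' _ _ ENNReal.ofReal_ne_top]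
    have hgC : AEMeasurable g (μ.restrict (C k)) :=
      hg.mono_measure (Measure.restrict_mono (hCS k) le_rfl)
    rw [← lintegral_add_right' _ (hgC.const_mul _)]
    exact setLIntegral_mono' (hCm k) fun z hz => hpt k hk.1 hk.2 z (hCS k hz)
  -- sum
  have hsumC : ∑ k ∈ Finset.Ico 1 N, ∫⁻ z in C k, F z ∂μ ≤ ∫⁻ z in S, F z ∂μ := by
    have hd : Set.PairwiseDisjoint (↑(Finset.Ico 1 N)) C := by
      have hlt : ∀ i j, i < j → Disjoint (C i) (C j) := by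
        intro i j hij
        rw [Set.disjoint_left]
        rintro z ⟨-, hzi, -⟩ ⟨-, -, hzj⟩
        apply hzj
        have hmon : Monotone H := monotone_nat_of_le_succ hHm
        exact hmon (by omega : i ≤ j - 1) hzi
      intro i _ j _ hij
      rcases lt_or_gt_of_ne hij with h | h
      · exact hlt i j h
      · exact (hlt j i h).symm
    rw [← lintegral_biUnion_finset hd (fun k _ => hCm k)]
    exact lintegral_mono_set (iUnion₂_subset fun k _ => hCS k)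
  rw [Finset.mul_sum, Finset.mul_sum, ENNReal.ofReal_sum_of_nonneg (fun k _ =>
    mul_nonneg ha (mul_nonneg (hA k) (Finset.sum_nonneg fun j _ =>
      mul_nonneg (hθ j).le (hPnn k j)))), ENNReal.ofReal_sum_of_nonneg (fun k hk =>
    mul_nonneg hb (mul_nonneg (hB k) (hMnn k (Finset.mem_Ico.1 hk).2)))]
  calc _ ≤ ∑ k ∈ Finset.Ico 1 N, (∫⁻ z in C k, F z ∂μ + ENNReal.ofReal (b * (B k *
        ((∫⁻ z in S ∩ H k, g z ∂μ).toReal - (∫⁻ z in S ∩ H (k - 1), g z ∂μ).toReal)))) :=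
        Finset.sum_le_sum hI3
    _ = _ := Finset.sum_add_distrib
    _ ≤ _ := by gcongr

end

end Pool.Agent.CRO
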