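import Pool.Agent.helper58.CRO.SpecI
import Pool.Agent.helper79.CRO.Lib
import Pool.Agent.helper73.CRO.IGEabs

open scoped Manifold ContDiff Topology ENNReal
open MeasureTheory Set

noncomputable section

namespace Pool.Agent.CRO

theorem IGE_abel0 (A P : ℕ → ℝ) (M : ℕ) :
    ∑ k ∈ Finset.Ico 1 (M + 1), A k * (P k - P (k - 1)) =
      (∑ k ∈ Finset.Ico 1 (M + 1), (A k - A (k + 1)) * P k) + A (M + 1) * P M - A 1 * P 0 := by
  induction M with
  | zero => simp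
  | succ M ih =>
    rw [Finset.sum_Ico_succ_top (show 1 ≤ M + 1 by omega),
      Finset.sum_Ico_succ_top (show 1 ≤ M + 1 by omega), ih, Nat.add_sub_cancel]
    ring

theorem IGE_tel (A : ℕ → ℝ) (j m : ℕ) :
    ∑ k ∈ Finset.Ico j (j + m), (A k - A (k + 1)) = A j - A (j + m) := by
  induction m with
  | zero => simp
  | succ m ih =>
    rw [← add_assoc, Finset.sum_Ico_succ_top (by omega), ih]
    ring

theorem IGE_abel (N j : ℕ) (hj : 1 ≤ j) (hjN : j ≤ N) (A : ℕ → ℝ) (hAN : A N = 0) (P : ℕ → ℝ)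
    (hP0 : P 0 = 0) (K : ℝ) (hPK : ∀ k, j ≤ k → P k = K) :
    ∑ k ∈ Finset.Ico 1 N, A k * (P k - P (k - 1)) =
      (∑ k ∈ Finset.Ico 1 j, (A k - A (k + 1)) * P k) + A j * K := by
  obtain ⟨M, rfl⟩ : ∃ M, N = M + 1 := ⟨N - 1, by omega⟩
  obtain ⟨m, hm⟩ : ∃ m, M + 1 = j + m := ⟨M + 1 - j, by omega⟩
  rw [IGE_abel0, hAN, hP0, zero_mul, mul_zero, add_zero, sub_zero,
    ← Finset.sum_Ico_consecutive _ hj hjN]
  congr 1
  have e1 : ∑ k ∈ Finset.Ico j (M + 1), (A k - A (k + 1)) * P k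
      = ∑ k ∈ Finset.Ico j (M + 1), (A k - A (k + 1)) * K := by
    refine Finset.sum_congr rfl fun k hk => ?_
    rw [hPK k (Finset.mem_Ico.1 hk).1]
  rw [e1, ← Finset.sum_mul, hm, IGE_tel, ← hm, hAN, sub_zero]

theorem IGE_BTc_nonneg (n : ℕ) (hn : 1 ≤ n) (c : ℝ) (hc0 : 0 ≤ c) (hc1 : c ≤ 1) : 0 ≤ BTc n c := by
  have hn0 : (0 : ℝ) < n := by
    have : 0 < n := hn
    exact_mod_cast this
  have hsc : Continuous (fun t : ℝ => Real.sqrt (1 - t ^ 2)) := by fun_prop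
  have hcont : Continuous (fun t : ℝ => -(Real.sqrt (1 - t ^ 2) ^ (n + 1) / ((n : ℝ) + 1))) := by
    fun_prop
  have hc' : Continuous (fun t : ℝ => t * Real.sqrt (1 - t ^ 2) ^ (n - 1)) := by fun_prop
  have hc'' : Continuous (fun t : ℝ => Real.sqrt (1 - t ^ 2) ^ (n - 1)) := by fun_prop
  have hval := intervalIntegral.integral_eq_sub_of_hasDerivAt_of_le hc1 hcont.continuousOn
    (f' := fun t : ℝ => t * Real.sqrt (1 - t ^ 2) ^ (n - 1)) (by
      intro t ht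
      have ht1 : 0 < 1 - t ^ 2 := by nlinarith [ht.1, ht.2]
      have hs : 0 < Real.sqrt (1 - t ^ 2) := Real.sqrt_pos.2 ht1
      have h1 : HasDerivAt (fun t : ℝ => 1 - t ^ 2) (-(2 * t)) t := by
        have := (hasDerivAt_pow 2 t).const_sub 1
        simpa using this
      have h2 := h1.sqrt ht1.ne'
      have h3 := ((h2.pow (n + 1)).div_const ((n : ℝ) + 1)).neg
      have h4 : -(((n + 1 : ℕ) : ℝ) * Real.sqrt (1 - t ^ 2) ^ (n + 1 - 1) *
          (-(2 * t) / (2 * Real.sqrt (1 - t ^ 2))) / ((n : ℝ) + 1))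
          = t * Real.sqrt (1 - t ^ 2) ^ (n - 1) := by
        obtain ⟨m, rfl⟩ : ∃ m, n = m + 1 := ⟨n - 1, by omega⟩
        simp only [Nat.add_sub_cancel]
        push_cast
        have : (m : ℝ) + 1 + 1 ≠ 0 := by positivity
        field_simp
        ring
      rw [h4] at h3
      exact h3) (hc'.intervalIntegrable _ _)
  have hle : c * MMc n c ≤ ∫ t in c..1, t * Real.sqrt (1 - t ^ 2) ^ (n - 1) := by
    unfold MMc
    rw [← intervalIntegral.integral_const_mul]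
    apply intervalIntegral.integral_mono_on hc1 ((hc''.const_mul c).intervalIntegrable _ _)
      (hc'.intervalIntegrable _ _)
    intro t ht
    exact mul_le_mul_of_nonneg_right ht.1 (pow_nonneg (Real.sqrt_nonneg _) _)
  rw [hval] at hle
  have h0 : Real.sqrt (1 - (1 : ℝ) ^ 2) ^ (n + 1) = 0 := by
    rw [one_pow, sub_self, Real.sqrt_zero, zero_pow (by omega)]
  rw [h0] at hle
  unfold BTc
  set s := Real.sqrt (1 - c ^ 2) ^ (n + 1) with hs
  have hs0 : 0 ≤ s := pow_nonneg (Real.sqrt_nonneg _) _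
  have : s / ((n : ℝ) + 1) ≤ s / n := div_le_div_of_nonneg_left hs0 hn0 (by linarith)
  have h9 : -(0 / ((n : ℝ) + 1)) - -(s / ((n : ℝ) + 1)) = s / ((n : ℝ) + 1) := by ring
  linarith

/-- index of the shell -/
def IGE_J (h : ℝ) (N : ℕ) (x : ℝ) : ℕ := min N (⌊x / h⌋₊ + 1)

theorem IGE_J_mem (h : ℝ) (N : ℕ) (hN : 1 ≤ N) (x : ℝ) : IGE_J h N x ∈ Finset.Icc 1 N := by
  unfold IGE_J
  rw [Finset.mem_Icc]
  omega

theorem IGE_J_iff (h : ℝ) (hh : 0 < h) (N : ℕ) (x : ℝ) (hx : 0 ≤ x) (hxN : x < N * h) (j : ℕ)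
    (hj : j ∈ Finset.Icc 1 N) :
    (((j : ℝ) - 1) * h ≤ x ∧ x < j * h) ↔ IGE_J h N x = j := by
  rw [Finset.mem_Icc] at hj
  have hxh : 0 ≤ x / h := div_nonneg hx hh.le
  have h1 : ⌊x / h⌋₊ < N := by
    rw [Nat.floor_lt hxh, div_lt_iff₀ hh]
    exact hxN
  have h2 : IGE_J h N x = ⌊x / h⌋₊ + 1 := by
    unfold IGE_J
    omega
  rw [h2]
  obtain ⟨i, rfl⟩ : ∃ i, j = i + 1 := ⟨j - 1, by omega⟩
  have h3 : ⌊x / h⌋₊ + 1 = i + 1 ↔ ⌊x / h⌋₊ = i := by omega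
  rw [h3, Nat.floor_eq_iff hxh, le_div_iff₀ hh, div_lt_iff₀ hh]
  push_cast
  rw [add_sub_cancel_right]

theorem IGE_J_measurable (h : ℝ) (N : ℕ) : Measurable (IGE_J h N) := by
  unfold IGE_J
  apply Measurable.min measurable_const
  exact (Nat.measurable_floor.comp (measurable_id.div_const h)).add_const 1

theorem IGE_kap_pos (m : ℕ) : 0 < kap m := by
  unfold kap
  exact ENNReal.toReal_pos (Metric.measure_ball_pos volume 0 one_pos).ne' measure_ball_lt_top.ne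

theorem IGE_VV_mono {n : ℕ} {r0 : ℝ} (𝒢 : NChart n r0) (a b : ℝ) (hab : a ≤ b) (hb : b < r0) :
    VV 𝒢 a ≤ VV 𝒢 b := by
  unfold VV
  exact setIntegral_mono_set (H79L_f_int 𝒢 b hb)
    (Filter.Eventually.of_forall fun x => H79L_f_nonneg 𝒢 x)
    (Metric.ball_subset_ball hab).eventuallyLE

/-- the integral of the density over a shell -/
theorem IGE_shell {n : ℕ} {r0 : ℝ} (𝒢 : NChart n r0) (a b : ℝ) (hab : a ≤ b) (hb : b < r0) :
    ∫⁻ x in {x : En n | a ≤ ‖x‖ ∧ ‖x‖ < b}, ENNReal.ofReal (H79L_f 𝒢 x) =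
      ENNReal.ofReal (VV 𝒢 b - VV 𝒢 a) := by
  have h1 := H79L_VV_lint 𝒢 b hb 1 zero_le_one
  have h2 := H79L_VV_lint 𝒢 a (hab.trans_lt hb) 1 zero_le_one
  simp only [one_mul] at h1 h2
  have hm : MeasurableSet (Metric.ball (0 : En n) a) := measurableSet_ball
  have h3 := lintegral_inter_add_sdiff (μ := (volume : Measure (En n)))
    (fun x => ENNReal.ofReal (H79L_f 𝒢 x)) (Metric.ball (0 : En n) b) hm
  have e1 : Metric.ball (0 : En n) b ∩ Metric.ball (0 : En n) a = Metric.ball (0 : En n) a :=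
    inter_eq_right.2 (Metric.ball_subset_ball hab)
  have e2 : Metric.ball (0 : En n) b \ Metric.ball (0 : En n) a
      = {x : En n | a ≤ ‖x‖ ∧ ‖x‖ < b} := by
    ext x
    simp only [mem_diff, Metric.mem_ball, dist_zero_right, not_lt, Set.mem_ofPred_eq]
    tauto
  rw [e1, e2, h1, h2] at h3
  have hVa : 0 ≤ VV 𝒢 a := by
    unfold VV
    exact integral_nonneg fun x => H79L_f_nonneg 𝒢 x
  rw [ENNReal.ofReal_sub _ hVa, ← h3, ENNReal.add_sub_cancel_left ENNReal.ofReal_ne_top]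

/-- the integral over the ball -/
theorem IGE_ball {n : ℕ} {r0 : ℝ} (𝒢 : NChart n r0) (R : ℝ) (hR : 0 < R) (hRr : R < r0) (N : ℕ)
    (hN : 1 ≤ N) (θ : ℕ → ℝ) :
    ∫⁻ x in Metric.ball (0 : En n) R, ENNReal.ofReal (Real.sqrt (θ (IGE_J (R / N) N ‖x‖)) ^ (n + 1) *
      (Real.sqrt (𝒢.G x).det)⁻¹) =
    ENNReal.ofReal (∑ j ∈ Finset.Icc 1 N, Real.sqrt (θ j) ^ (n + 1) * vv 𝒢 R N j) := by
  classical
  have hN0 : (0 : ℝ) < N := by
    have : 0 < N := hN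
    exact_mod_cast this
  have hh : 0 < R / N := div_pos hR hN0
  have hNh : (N : ℝ) * (R / N) = R := by field_simp
  have hjR : ∀ j ∈ Finset.Icc 1 N, (j : ℝ) * (R / N) ≤ R := by
    intro j hj
    calc (j : ℝ) * (R / N) ≤ N * (R / N) := by
          apply mul_le_mul_of_nonneg_right _ hh.le
          exact_mod_cast (Finset.mem_Icc.1 hj).2
      _ = R := hNh
  have hjj : ∀ j : ℕ, ((j : ℝ) - 1) * (R / N) ≤ j * (R / N) := fun j =>
    mul_le_mul_of_nonneg_right (by linarith) hh.le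
  set Sx : ℕ → Set (En n) := fun j => {x | ((j : ℝ) - 1) * (R / N) ≤ ‖x‖ ∧ ‖x‖ < j * (R / N)}
    with hSx
  have hSm : ∀ j, MeasurableSet (Sx j) := fun j =>
    (measurableSet_le measurable_const measurable_norm).inter
      (measurableSet_lt measurable_norm measurable_const)
  have hU : Metric.ball (0 : En n) R = ⋃ j ∈ Finset.Icc 1 N, Sx j := by
    ext x
    simp only [mem_iUnion, exists_prop]
    rw [mem_ball_zero_iff]
    constructor
    · intro hx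
      have hx' : ‖x‖ < N * (R / N) := by rw [hNh]; exact hx
      have hJ := IGE_J_mem (R / N) N hN ‖x‖
      exact ⟨_, hJ, (IGE_J_iff (R / N) hh N ‖x‖ (norm_nonneg x) hx' _ hJ).2 rfl⟩
    · rintro ⟨j, hj, hx⟩
      exact hx.2.trans_le (hjR j hj)
  have hd : Set.PairwiseDisjoint (↑(Finset.Icc 1 N)) Sx := by
    intro i hi j hj hij
    rw [Function.onFun, Set.disjoint_left]
    intro x hxi hxj
    have hx' : ‖x‖ < N * (R / N) := by rw [hNh]; exact hxi.2.trans_le (hjR i hi)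
    have a1 := (IGE_J_iff (R / N) hh N ‖x‖ (norm_nonneg x) hx' i hi).1 hxi
    have a2 := (IGE_J_iff (R / N) hh N ‖x‖ (norm_nonneg x) hx' j hj).1 hxj
    exact hij (a1.symm.trans a2)
  have hvv : ∀ j ∈ Finset.Icc 1 N, 0 ≤ vv 𝒢 R N j := fun j hj =>
    sub_nonneg.2 (IGE_VV_mono 𝒢 _ _ (hjj j) ((hjR j hj).trans_lt hRr))
  rw [hU, lintegral_biUnion_finset hd (fun j _ => hSm j), ENNReal.ofReal_sum_of_nonneg
    (fun j hj => mul_nonneg (pow_nonneg (Real.sqrt_nonneg _) _) (hvv j hj))]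
  refine Finset.sum_congr rfl fun j hj => ?_
  have e1 : ∫⁻ x in Sx j, ENNReal.ofReal (Real.sqrt (θ (IGE_J (R / N) N ‖x‖)) ^ (n + 1) *
      (Real.sqrt (𝒢.G x).det)⁻¹) = ∫⁻ x in Sx j, ENNReal.ofReal (Real.sqrt (θ j) ^ (n + 1)) *
        ENNReal.ofReal (H79L_f 𝒢 x) := by
    refine setLIntegral_congr_fun (hSm j) fun x hx => ?_
    have hx' : ‖x‖ < N * (R / N) := by rw [hNh]; exact hx.2.trans_le (hjR j hj)
    have a1 := (IGE_J_iff (R / N) hh N ‖x‖ (norm_nonneg x) hx' j hj).1 hx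
    simp only [a1]
    rw [ENNReal.ofReal_mul (pow_nonneg (Real.sqrt_nonneg _) _)]
    rfl
  rw [e1, lintegral_const_mul' _ _ ENNReal.ofReal_ne_top,
    ENNReal.ofReal_mul (pow_nonneg (Real.sqrt_nonneg _) _)]
  congr 1
  exact IGE_shell 𝒢 _ _ (hjj j) ((hjR j hj).trans_lt hRr)

/-- the shells in phase space -/
def IGE_Sh (n : ℕ) (R : ℝ) (N j : ℕ) : Set (PS n) :=
  {z | ((j : ℝ) - 1) * (R / N) ≤ ‖z.1‖ ∧ ‖z.1‖ < j * (R / N)}

theorem IGE_Sh_meas (n : ℕ) (R : ℝ) (N j : ℕ) : MeasurableSet (IGE_Sh n R N j) :=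
  (measurableSet_le measurable_const measurable_fst.norm).inter
    (measurableSet_lt measurable_fst.norm measurable_const)

/-- the density of the levels -/
def IGE_g {n : ℕ} {r0 : ℝ} (𝒢 : NChart n r0) (Φ : ℝ → PS n → PS n) (R : ℝ) (Θ : En n → ℝ)
    (z : PS n) : ℝ≥0∞ := ENNReal.ofReal (Θ z.1 / sp 𝒢 z) * (TT Φ R Θ z)⁻¹

theorem IGE_SLfin (h4 : ICP_stmt) {n : ℕ} {r0 : ℝ} (𝒢 : NChart n r0) (e R : ℝ) (hn : 2 ≤ n)
    (he0 : 0 < e) (he1 : e < 1) (hR : 0 < R) (hRr : R < r0) : volume (SL 𝒢 e R) ≠ ⊤ := by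
  have h := (h4 n r0 𝒢 e 0 R hn he0 he1 le_rfl hR hRr).1
  have e1 : SL 𝒢 e R = {z : PS n | (0 ≤ ‖z.1‖ ∧ ‖z.1‖ < R) ∧ e < sp 𝒢 z ∧ sp 𝒢 z < 1} := by
    ext z
    constructor
    · intro hz
      exact ⟨⟨norm_nonneg _, hz.1⟩, hz.2⟩
    · intro hz
      exact ⟨hz.1.2, hz.2⟩
  rw [e1, h]
  exact ENNReal.ofReal_ne_top

theorem IGE_TT (h7 : IWN_stmt) {n : ℕ} {r0 : ℝ} {𝒢 : NChart n r0} {L R e r1 : ℝ}
    {H : PS n → ℝ} {Φ : ℝ → PS n → PS n} (hS : Std 𝒢 L R e r1 H Φ) (Θ : En n → ℝ) (c C : ℝ)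
    (hc : 0 < c) (hb : ∀ x, c ≤ Θ x ∧ Θ x ≤ C) (z : PS n) (hz : z ∈ SL 𝒢 e R) :
    TT Φ R Θ z ≠ 0 ∧ TT Φ R Θ z ≠ ⊤ := by
  obtain ⟨α, β, hα, hβ, hstay, -, -, -, -, -⟩ := h7 n r0 𝒢 L R e r1 H Φ hS z hz
  have hset : {u | Stay Φ R z u} = Ioo α β := by
    ext u
    exact hstay u
  unfold TT
  rw [hset]
  constructor
  · have h1 : ENNReal.ofReal c * volume (Ioo α β) ≤
        ∫⁻ u in Ioo α β, ENNReal.ofReal (Θ (Φ u z).1) := by
      rw [← setLIntegral_const]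
      exact lintegral_mono fun u => ENNReal.ofReal_le_ofReal (hb _).1
    intro h0
    rw [h0, Real.volume_Ioo] at h1
    have h2 : 0 < ENNReal.ofReal c * ENNReal.ofReal (β - α) := by
      apply ENNReal.mul_pos
      · exact (ENNReal.ofReal_pos.2 hc).ne'
      · exact (ENNReal.ofReal_pos.2 (by linarith)).ne'
    exact absurd (le_antisymm h1 (zero_le)) h2.ne'
  · refine ne_top_of_le_ne_top (b := ENNReal.ofReal C * volume (Ioo α β)) ?_ ?_
    · rw [Real.volume_Ioo]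
      exact ENNReal.mul_ne_top ENNReal.ofReal_ne_top ENNReal.ofReal_ne_top
    · rw [← setLIntegral_const]
      exact lintegral_mono fun u => ENNReal.ofReal_le_ofReal (hb _).2

theorem IGE_pt (n : ℕ) (s t θ0 A B : ℝ) (hs : 0 < s) (ht : 0 < t) (hθ : 0 < θ0) (hA : 0 ≤ A)
    (hB : 0 ≤ B) (htan : ∀ T : ℝ, 0 ≤ T → (n + 1) * T * A - n * B ≤ T ^ (n + 1)) :
    ENNReal.ofReal (((n : ℝ) + 1) * A) * ENNReal.ofReal θ0 ≤
      ENNReal.ofReal (s ^ n * θ0) * ENNReal.ofReal t ^ n +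
        ENNReal.ofReal ((n : ℝ) * B) * (ENNReal.ofReal (θ0 / s) * (ENNReal.ofReal t)⁻¹) := by
  have hn : (0 : ℝ) ≤ n := Nat.cast_nonneg n
  rw [← ENNReal.ofReal_inv_of_pos ht, ← ENNReal.ofReal_mul (by positivity),
    ← ENNReal.ofReal_mul (by positivity), ← ENNReal.ofReal_pow ht.le,
    ← ENNReal.ofReal_mul (by positivity), ← ENNReal.ofReal_mul (by positivity),
    ← ENNReal.ofReal_add (by positivity) (by positivity)]
  apply ENNReal.ofReal_le_ofReal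
  have h := htan (s * t) (by positivity)
  have hT : 0 < s * t := by positivity
  have h2 : (n + 1) * A ≤ (s * t) ^ n + n * B / (s * t) := by
    have h3 : (n + 1) * A * (s * t) ≤ ((s * t) ^ n + n * B / (s * t)) * (s * t) := by
      rw [add_mul ((s * t) ^ n), div_mul_cancel₀ _ hT.ne', ← pow_succ]
      linarith
    exact le_of_mul_le_mul_right h3 hT
  have h4 := mul_le_mul_of_nonneg_right h2 hθ.le
  have h5 : ((s * t) ^ n + n * B / (s * t)) * θ0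
      = s ^ n * θ0 * t ^ n + n * B * (θ0 / s * t⁻¹) := by
    rw [mul_pow]
    field_simp
  rw [h5] at h4
  exact h4

/-- the integral of the density of the levels -/
def IGE_M {n : ℕ} {r0 : ℝ} (𝒢 : NChart n r0) (Φ : ℝ → PS n → PS n) (e R : ℝ) (Θ : En n → ℝ)
    (N k : ℕ) : ℝ≥0∞ := ∫⁻ z in SL 𝒢 e R ∩ Hit Φ R (k * (R / N)), IGE_g 𝒢 Φ R Θ z

/-- volume of a level in a shell -/
def IGE_P {n : ℕ} {r0 : ℝ} (𝒢 : NChart n r0) (Φ : ℝ → PS n → PS n) (e R : ℝ) (N k j : ℕ) : ℝ :=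
  (volume (SL 𝒢 e R ∩ Hit Φ R (k * (R / N)) ∩ IGE_Sh n R N j)).toReal

theorem IGE_two (h m P E b : ℝ) (hh : 0 ≤ h) (hP : 0 ≤ P) (hE : 0 ≤ E) (hb : 0 ≤ b)
    (hle : 2 * (ENNReal.ofReal h * ENNReal.ofReal m) ≤
      ENNReal.ofReal b * ENNReal.ofReal P + 2 * ENNReal.ofReal E) :
    2 * (h * m) ≤ b * P + 2 * E := by
  have h2 : (2 : ℝ≥0∞) = ENNReal.ofReal 2 := by norm_num
  rw [← ENNReal.ofReal_mul hh, ← ENNReal.ofReal_mul hb, h2, ← ENNReal.ofReal_mul (by norm_num),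
    ← ENNReal.ofReal_mul (by norm_num), ← ENNReal.ofReal_add
      (mul_nonneg hb hP) (mul_nonneg (by norm_num) hE),
    ENNReal.ofReal_le_ofReal_iff (add_nonneg (mul_nonneg hb hP)
      (mul_nonneg (by norm_num) hE))] at hle
  exact hle

/-- the threshold inequality -/
theorem IGE_thr (h3 : IBT_stmt) (h4 : ICP_stmt) {n : ℕ} {r0 : ℝ}
    {𝒢 : NChart n r0} {L R e r1 : ℝ} {H : PS n → ℝ} {Φ : ℝ → PS n → PS n}
    (hS : Std 𝒢 L R e r1 H Φ) (Θ : En n → ℝ) (hΘ : Measurable Θ) (c C : ℝ) (hc : 0 < c)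
    (hb : ∀ x, c ≤ Θ x ∧ Θ x ≤ C) (N : ℕ) (k j : ℕ) (hk : 1 ≤ k) (hkj : k < j) (hj : j ≤ N) :
    IGE_M 𝒢 Φ e R Θ N k ≠ ⊤ ∧ ∀ b : ℝ, 0 ≤ b → b ≤ 1 →
      2 * (R / N * (IGE_M 𝒢 Φ e R Θ N k).toReal) ≤ b * IGE_P 𝒢 Φ e R N k j +
        2 * ((1 - e ^ n) * (kap (n - 1) * BTc n b * vv 𝒢 R N j)) := by
  have hRr : R < r0 := hS.Rr.trans hS.fl.r1lt
  have hn2 := hS.n2
  have hN0 : (0 : ℝ) < N := by
    have : 0 < N := by omega
    exact_mod_cast this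
  have hh : 0 < R / N := div_pos hS.Rpos hN0
  have hNh : (N : ℝ) * (R / N) = R := by field_simp
  have hjR : (j : ℝ) * (R / N) ≤ R := by
    calc (j : ℝ) * (R / N) ≤ N * (R / N) := by
          apply mul_le_mul_of_nonneg_right _ hh.le
          exact_mod_cast hj
      _ = R := hNh
  have hk0 : (0 : ℝ) < k := by
    have : 0 < k := hk
    exact_mod_cast this
  have hkj' : (k : ℝ) ≤ (j : ℝ) - 1 := by
    have : (k : ℝ) + 1 ≤ j := by exact_mod_cast hkj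
    linarith
  have hIBT := h3 n r0 𝒢 L R e r1 H Φ hS Θ c C hΘ hc hb (k * (R / N)) (((j : ℝ) - 1) * (R / N))
    (j * (R / N)) (mul_pos hk0 hh) (mul_le_mul_of_nonneg_right hkj' hh.le)
    (mul_lt_mul_of_pos_right (by linarith) hh) hjR
  have hdiff : (j : ℝ) * (R / N) - ((j : ℝ) - 1) * (R / N) = R / N := by ring
  have hen : 0 < 1 - e ^ n := by
    have := pow_lt_one₀ hS.epos.le hS.elt (show n ≠ 0 by omega)
    linarith
  have hvv : 0 ≤ vv 𝒢 R N j := sub_nonneg.2 (IGE_VV_mono 𝒢 _ _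
    (mul_le_mul_of_nonneg_right (by linarith) hh.le) (hjR.trans_lt hRr))
  have hfin : volume (SL 𝒢 e R ∩ Hit Φ R (k * (R / N)) ∩ IGE_Sh n R N j) ≠ ⊤ :=
    ne_top_of_le_ne_top (IGE_SLfin h4 𝒢 e R hn2 hS.epos hS.elt hS.Rpos hRr)
      (measure_mono (inter_subset_left.trans inter_subset_left))
  -- restate
  have hIBT' : ∀ b : ℝ, 0 ≤ b → b ≤ 1 → 2 * (ENNReal.ofReal (R / N) * IGE_M 𝒢 Φ e R Θ N k) ≤
      ENNReal.ofReal b * volume (SL 𝒢 e R ∩ Hit Φ R (k * (R / N)) ∩ IGE_Sh n R N j) +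
        2 * ENNReal.ofReal ((1 - e ^ n) * (kap (n - 1) * BTc n b * vv 𝒢 R N j)) := by
    intro b hb0 hb1
    have := hIBT b hb0 hb1
    rw [hdiff] at this
    exact this
  have hMfin : IGE_M 𝒢 Φ e R Θ N k ≠ ⊤ := by
    intro htop
    have h0 := hIBT' 1 zero_le_one le_rfl
    rw [htop, ENNReal.mul_top (ENNReal.ofReal_pos.2 hh).ne',
      ENNReal.mul_top (by norm_num), top_le_iff] at h0
    exact ENNReal.add_ne_top.2 ⟨ENNReal.mul_ne_top ENNReal.ofReal_ne_top hfin,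
      ENNReal.mul_ne_top (by norm_num) ENNReal.ofReal_ne_top⟩ h0
  refine ⟨hMfin, fun b hb0 hb1 => ?_⟩
  have hE : 0 ≤ (1 - e ^ n) * (kap (n - 1) * BTc n b * vv 𝒢 R N j) :=
    mul_nonneg hen.le (mul_nonneg (mul_nonneg (IGE_kap_pos _).le
      (IGE_BTc_nonneg n (by omega) b hb0 hb1)) hvv)
  have h := hIBT' b hb0 hb1
  rw [← ENNReal.ofReal_toReal hMfin, ← ENNReal.ofReal_toReal hfin] at h
  exact IGE_two _ _ _ _ _ hh.le ENNReal.toReal_nonneg hE hb0 h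

theorem IGE_gmeas (h6 : IME_stmt) {n : ℕ} {r0 : ℝ}
    {𝒢 : NChart n r0} {L R e r1 : ℝ} {H : PS n → ℝ} {Φ : ℝ → PS n → PS n}
    (hS : Std 𝒢 L R e r1 H Φ) (Θ : En n → ℝ) (hΘ : Measurable Θ) :
    AEMeasurable (IGE_g 𝒢 Φ R Θ) (volume.restrict (SL 𝒢 e R)) := by
  obtain ⟨-, hSL, hsp, -, -, hTT, -⟩ := h6 n r0 𝒢 L R e r1 H Φ hS
  have hm : Measurable (fun z : PS n => ENNReal.ofReal (Θ z.1 / (SL 𝒢 e R).indicator (sp 𝒢) z) *
      (TT Φ R Θ z)⁻¹) :=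
    (ENNReal.measurable_ofReal.comp ((hΘ.comp measurable_fst).div hsp)).mul (hTT Θ hΘ).inv
  refine ⟨_, hm, ?_⟩
  rw [Filter.EventuallyEq, ae_restrict_iff' hSL.measurableSet]
  filter_upwards with z hz
  rw [indicator_of_mem hz]
  rfl

/-- the volume of a full shell -/
theorem IGE_P_full (h4 : ICP_stmt) {n : ℕ} {r0 : ℝ}
    {𝒢 : NChart n r0} {L R e r1 : ℝ} {H : PS n → ℝ} {Φ : ℝ → PS n → PS n}
    (hS : Std 𝒢 L R e r1 H Φ) (N k j : ℕ) (hj1 : 1 ≤ j) (hjN : j ≤ N) (hjk : j ≤ k) :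
    IGE_P 𝒢 Φ e R N k j = (1 - e ^ n) * (kap n * vv 𝒢 R N j) := by
  have hRr : R < r0 := hS.Rr.trans hS.fl.r1lt
  have hn2 := hS.n2
  have hN0 : (0 : ℝ) < N := by
    have : 0 < N := by omega
    exact_mod_cast this
  have hh : 0 < R / N := div_pos hS.Rpos hN0
  have hNh : (N : ℝ) * (R / N) = R := by field_simp
  have hjR : (j : ℝ) * (R / N) ≤ R := by
    calc (j : ℝ) * (R / N) ≤ N * (R / N) := by
          apply mul_le_mul_of_nonneg_right _ hh.le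
          exact_mod_cast hjN
      _ = R := hNh
  have hj1' : (1 : ℝ) ≤ j := by exact_mod_cast hj1
  have hjk' : (j : ℝ) ≤ k := by exact_mod_cast hjk
  have h := (h4 n r0 𝒢 e (((j : ℝ) - 1) * (R / N)) (j * (R / N)) hn2 hS.epos hS.elt
    (mul_nonneg (by linarith) hh.le) (mul_lt_mul_of_pos_right (by linarith) hh)
    (hjR.trans_lt hRr)).1
  have e1 : SL 𝒢 e R ∩ Hit Φ R (k * (R / N)) ∩ IGE_Sh n R N j =
      {z : PS n | (((j : ℝ) - 1) * (R / N) ≤ ‖z.1‖ ∧ ‖z.1‖ < j * (R / N)) ∧ e < sp 𝒢 z ∧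
        sp 𝒢 z < 1} := by
    ext z
    constructor
    · rintro ⟨⟨hz, -⟩, hz2⟩
      exact ⟨hz2, hz.2⟩
    · rintro ⟨hz, hz2⟩
      refine ⟨⟨⟨hz.2.trans_le hjR, hz2⟩, ⟨0, ?_, ?_⟩⟩, hz⟩
      · intro s hs
        rw [uIcc_self, mem_singleton_iff] at hs
        rw [hs, hS.fl.zero]
        exact hz.2.trans_le hjR
      · rw [hS.fl.zero]
        exact hz.2.trans_le (mul_le_mul_of_nonneg_right hjk' hh.le)
  have hen : 0 < 1 - e ^ n := by
    have := pow_lt_one₀ hS.epos.le hS.elt (show n ≠ 0 by omega)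
    linarith
  have hvv : 0 ≤ vv 𝒢 R N j := sub_nonneg.2 (IGE_VV_mono 𝒢 _ _
    (mul_le_mul_of_nonneg_right (by linarith) hh.le) (hjR.trans_lt hRr))
  unfold IGE_P
  rw [e1, h]
  exact ENNReal.toReal_ofReal (mul_nonneg hen.le (mul_nonneg (IGE_kap_pos _).le hvv))

/-- the final algebra -/
theorem IGE_final (X : ℝ≥0∞) (n N : ℕ) (c0 Q E kn kn1 : ℝ) (hE : 0 < E) (hc0 : 0 ≤ c0)
    (θ : ℕ → ℝ) (P : ℕ → ℕ → ℝ) (m : ℕ → ℝ) (vj : ℕ → ℝ) (A B : ℕ → ℝ) (hAN : A N = 0)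
    (hkn1 : 0 < kn1) (hn : 0 < n) (hP0 : ∀ j, P 0 j = 0)
    (hPf : ∀ j k, 1 ≤ j → j ≤ N → j ≤ k → P k j = E * (kn * vj j))
    (hmain : ENNReal.ofReal (((n : ℝ) + 1) * ∑ k ∈ Finset.Ico 1 N, A k * ∑ j ∈ Finset.Icc 1 N,
      θ j * (P k j - P (k - 1) j)) ≤ X + ENNReal.ofReal ((n : ℝ) * ∑ k ∈ Finset.Ico 1 N, B k *
        (m k - m (k - 1))))
    (hX : ENNReal.ofReal (n * c0) * X ≤ ENNReal.ofReal E * ENNReal.ofReal Q ^ 2)
    (hQ : 0 ≤ Q) (hBm : 0 ≤ ∑ k ∈ Finset.Ico 1 N, B k * (m k - m (k - 1))) :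
    n * c0 * ((n + 1) * (∑ j ∈ Finset.Icc 1 N, θ j *
        ((∑ k ∈ Finset.Ico 1 j, (A k - A (k + 1)) * (P k j / E)) + A j * (kn * vj j))) -
      kn1 * ∑ k ∈ Finset.Ico 1 N, B k * (n * m k / (E * kn1) - n * m (k - 1) / (E * kn1))) ≤
    Q ^ 2 := by
  have hn0 : (0 : ℝ) < n := by exact_mod_cast hn
  have hnc : 0 ≤ n * c0 := mul_nonneg hn0.le hc0
  set S1 := ∑ k ∈ Finset.Ico 1 N, A k * ∑ j ∈ Finset.Icc 1 N, θ j * (P k j - P (k - 1) j)
    with hS1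
  set S2 := ∑ k ∈ Finset.Ico 1 N, B k * (m k - m (k - 1)) with hS2
  -- real form of the main inequality
  have h1 : n * c0 * ((n + 1) * S1) ≤ E * Q ^ 2 + n * c0 * (n * S2) := by
    have h2 : ENNReal.ofReal (n * c0) * ENNReal.ofReal (((n : ℝ) + 1) * S1) ≤
        ENNReal.ofReal E * ENNReal.ofReal Q ^ 2 +
          ENNReal.ofReal (n * c0) * ENNReal.ofReal ((n : ℝ) * S2) := by
      calc _ ≤ ENNReal.ofReal (n * c0) * (X + ENNReal.ofReal ((n : ℝ) * S2)) := by gcongr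
        _ = ENNReal.ofReal (n * c0) * X + ENNReal.ofReal (n * c0) *
            ENNReal.ofReal ((n : ℝ) * S2) := mul_add _ _ _
        _ ≤ _ := by gcongr
    rw [← ENNReal.ofReal_mul hnc, ← ENNReal.ofReal_mul hnc, ← ENNReal.ofReal_pow hQ,
      ← ENNReal.ofReal_mul hE.le, ← ENNReal.ofReal_add (by positivity)
        (mul_nonneg hnc (mul_nonneg hn0.le hBm)),
      ENNReal.ofReal_le_ofReal_iff (add_nonneg (by positivity)
        (mul_nonneg hnc (mul_nonneg hn0.le hBm)))] at h2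
    exact h2
  -- Abel summation
  have h3 : S1 = E * ∑ j ∈ Finset.Icc 1 N, θ j *
        ((∑ k ∈ Finset.Ico 1 j, (A k - A (k + 1)) * (P k j / E)) + A j * (kn * vj j)) := by
    have e1 : S1 = ∑ j ∈ Finset.Icc 1 N, θ j * ∑ k ∈ Finset.Ico 1 N, A k *
        (P k j - P (k - 1) j) := by
      rw [hS1]
      simp only [Finset.mul_sum]
      rw [Finset.sum_comm]
      refine Finset.sum_congr rfl fun j _ => Finset.sum_congr rfl fun k _ => ?_
      ring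
    rw [e1, Finset.mul_sum]
    refine Finset.sum_congr rfl fun j hj => ?_
    rw [Finset.mem_Icc] at hj
    have e2 := IGE_abel N j hj.1 hj.2 A hAN (fun k => P k j) (hP0 j) (E * (kn * vj j))
      (fun k hk => hPf j k hj.1 hj.2 hk)
    have e3 : ∑ k ∈ Finset.Ico 1 j, (A k - A (k + 1)) * P k j
        = E * ∑ k ∈ Finset.Ico 1 j, (A k - A (k + 1)) * (P k j / E) := by
      rw [Finset.mul_sum]
      refine Finset.sum_congr rfl fun k _ => ?_
      field_simp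
    rw [e2, e3]
    ring
  have h4 : n * S2 = E * (kn1 * ∑ k ∈ Finset.Ico 1 N, B k *
      (n * m k / (E * kn1) - n * m (k - 1) / (E * kn1))) := by
    rw [hS2]
    simp only [Finset.mul_sum]
    refine Finset.sum_congr rfl fun k _ => ?_
    field_simp
  rw [h3, h4] at h1
  have h5 : E * (n * c0 * ((n + 1) * (∑ j ∈ Finset.Icc 1 N, θ j *
        ((∑ k ∈ Finset.Ico 1 j, (A k - A (k + 1)) * (P k j / E)) + A j * (kn * vj j))) -
      kn1 * ∑ k ∈ Finset.Ico 1 N, B k * (n * m k / (E * kn1) - n * m (k - 1) / (E * kn1)))) ≤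
      E * Q ^ 2 := by
    linarith
  exact le_of_mul_le_mul_left h5 hE

theorem IGE (h1 : GFL_stmt) (h2 : IPI_stmt) (h3 : IBT_stmt) (h4 : ICP_stmt) (h5 : INV_stmt)
    (h6 : IME_stmt) (h7 : IWN_stmt) : IGE_stmt := by
  classical
  intro n r0 𝒢 L R hn hex hln hR hRr hRL N θ hN hθ
  have hL : 0 < L := by linarith
  have hn1 : 1 ≤ n := by omega
  obtain ⟨e, he0, he1, heL⟩ : ∃ e : ℝ, 0 < e ∧ e < 1 ∧ 2 * R < e * L := by
    have hq : 2 * R / L < 1 := by rw [div_lt_one hL]; exact hRL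
    have hq0 : 0 < 2 * R / L := by positivity
    refine ⟨(1 + 2 * R / L) / 2, by linarith, by linarith, ?_⟩
    have h9 : 2 * R / L < (1 + 2 * R / L) / 2 := by linarith
    exact (div_lt_iff₀ hL).1 h9
  obtain ⟨H, Φ, hΦ⟩ := h1 n r0 ((R + r0) / 2) 𝒢 (by linarith) (by linarith)
  have hS : Std 𝒢 L R e ((R + r0) / 2) H Φ :=
    ⟨hn, hΦ, hex, hln, hR, by linarith, he0, he1, heL⟩
  have hN0 : (0 : ℝ) < N := by
    have : 0 < N := hN
    exact_mod_cast this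
  have hh : 0 < R / N := div_pos hR hN0
  have hNh : (N : ℝ) * (R / N) = R := by field_simp
  have hen : 0 < 1 - e ^ n := by
    have := pow_lt_one₀ he0.le he1 (show n ≠ 0 by omega)
    linarith
  obtain ⟨-, hSLo, -, -, hHit, -, -⟩ := h6 n r0 𝒢 L R e _ H Φ hS
  -- the function theta
  obtain ⟨Θ, hΘdef⟩ : ∃ Θ : En n → ℝ, Θ = fun x => θ (IGE_J (R / N) N ‖x‖) := ⟨_, rfl⟩
  have hΘm : Measurable Θ := by
    rw [hΘdef]
    exact (measurable_from_top (f := θ)).comp ((IGE_J_measurable _ N).comp measurable_norm)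
  have hne : (Finset.Icc 1 N).Nonempty := ⟨1, Finset.mem_Icc.2 ⟨le_rfl, hN⟩⟩
  obtain ⟨j0, -, hj0⟩ := Finset.exists_min_image (Finset.Icc 1 N) θ hne
  obtain ⟨j1, -, hj1⟩ := Finset.exists_max_image (Finset.Icc 1 N) θ hne
  have hΘb : ∀ x, θ j0 ≤ Θ x ∧ Θ x ≤ θ j1 := by
    intro x
    rw [hΘdef]
    exact ⟨hj0 _ (IGE_J_mem _ N hN _), hj1 _ (IGE_J_mem _ N hN _)⟩
  have hΘ0 : ∀ x, 0 < Θ x := fun x => (hθ j0).trans_le (hΘb x).1
  -- the levels
  have hHit0 : Hit Φ R (((0 : ℕ) : ℝ) * (R / N)) = ∅ := by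
    rw [eq_empty_iff_forall_notMem]
    rintro z ⟨u, -, hu⟩
    rw [Nat.cast_zero, zero_mul] at hu
    exact absurd hu (not_lt.2 (norm_nonneg _))
  have hHitm : ∀ k : ℕ, Hit Φ R ((k : ℝ) * (R / N)) ⊆ Hit Φ R (((k + 1 : ℕ) : ℝ) * (R / N)) := by
    rintro k z ⟨u, hu1, hu2⟩
    refine ⟨u, hu1, hu2.trans_le ?_⟩
    apply mul_le_mul_of_nonneg_right _ hh.le
    push_cast
    linarith
  have hMfin : ∀ k, k < N → IGE_M 𝒢 Φ e R Θ N k ≠ ⊤ := by
    intro k hk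
    rcases Nat.eq_zero_or_pos k with rfl | hk0
    · unfold IGE_M
      rw [hHit0, inter_empty]
      simp
    · exact (IGE_thr h3 h4 hS Θ hΘm (θ j0) (θ j1) (hθ j0) hΘb N k N hk0 hk le_rfl).1
  have hMmono : ∀ k, k + 1 < N → (IGE_M 𝒢 Φ e R Θ N k).toReal ≤ (IGE_M 𝒢 Φ e R Θ N (k + 1)).toReal := by
    intro k hk
    apply ENNReal.toReal_mono (hMfin _ hk)
    exact lintegral_mono_set (inter_subset_inter_right _ (hHitm k))
  have hM0 : (IGE_M 𝒢 Φ e R Θ N 0).toReal = 0 := by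
    unfold IGE_M
    rw [hHit0, inter_empty]
    simp
  have hkn1 := IGE_kap_pos (n - 1)
  have hnn : (0 : ℝ) < n := by
    have : 0 < n := by omega
    exact_mod_cast this
  refine ⟨fun k => n * (IGE_M 𝒢 Φ e R Θ N k).toReal / ((1 - e ^ n) * kap (n - 1)),
    fun k j => IGE_P 𝒢 Φ e R N k j / (1 - e ^ n), ?_, ?_, ?_, ?_⟩
  · simp only [hM0, mul_zero, zero_div]
  · intro k hk
    simp only
    apply div_le_div_of_nonneg_right _ (mul_pos hen hkn1).le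
    exact mul_le_mul_of_nonneg_left (hMmono k hk) hnn.le
  · intro k j hk hkj hjN c hc
    have h := (IGE_thr h3 h4 hS Θ hΘm (θ j0) (θ j1) (hθ j0) hΘb N k j hk hkj hjN).2 c hc.1 hc.2
    simp only
    have e1 : 2 * kap (n - 1) * (R / N * (n * (IGE_M 𝒢 Φ e R Θ N k).toReal /
        ((1 - e ^ n) * kap (n - 1))) / n - BTc n c * vv 𝒢 R N j) =
        (2 * (R / N * (IGE_M 𝒢 Φ e R Θ N k).toReal) -
          2 * ((1 - e ^ n) * (kap (n - 1) * BTc n c * vv 𝒢 R N j))) / (1 - e ^ n) := by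
      field_simp
    rw [e1, ← mul_div_assoc]
    apply div_le_div_of_nonneg_right _ hen.le
    linarith
  · intro A B _ hA hAN hB htan
    -- the index
    have hJ : ∀ z ∈ SL 𝒢 e R, IGE_J (R / N) N ‖z.1‖ ∈ Finset.Icc 1 N ∧
        ∀ j ∈ Finset.Icc 1 N, (z ∈ IGE_Sh n R N j ↔ IGE_J (R / N) N ‖z.1‖ = j) := by
      intro z hz
      refine ⟨IGE_J_mem _ N hN _, fun j hj => ?_⟩
      have hz' : ‖z.1‖ < N * (R / N) := by rw [hNh]; exact hz.1
      exact IGE_J_iff (R / N) hh N ‖z.1‖ (norm_nonneg _) hz' j hj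
    have habs := IGE_abs (volume : Measure (PS n)) (SL 𝒢 e R)
      (fun k => Hit Φ R ((k : ℝ) * (R / N))) hSLo.measurableSet
      (IGE_SLfin h4 𝒢 e R hn he0 he1 hR hRr) (fun k => (hHit _).measurableSet) hHitm N
      (fun z => IGE_J (R / N) N ‖z.1‖) (fun j => IGE_Sh n R N j)
      (fun j => IGE_Sh_meas n R N j) hJ θ hθ
      (fun z => ENNReal.ofReal (sp 𝒢 z ^ n * Θ z.1) * TT Φ R Θ z ^ n) (IGE_g 𝒢 Φ R Θ)
      (IGE_gmeas h6 hS Θ hΘm) hMfin A B hA hB ((n : ℝ) + 1) n (by positivity) hnn.le (by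
        intro k hk hkN z hz
        obtain ⟨ht0, htt⟩ := IGE_TT h7 hS Θ (θ j0) (θ j1) (hθ j0) hΘb z hz
        have hpt := IGE_pt n (sp 𝒢 z) (TT Φ R Θ z).toReal (Θ z.1) (A k) (B k)
          (he0.trans hz.2.1) (ENNReal.toReal_pos ht0 htt) (hΘ0 _) (hA k) (hB k)
          (htan k hk hkN)
        rw [ENNReal.ofReal_toReal htt] at hpt
        have e2 : θ (IGE_J (R / N) N ‖z.1‖) = Θ z.1 := by rw [hΘdef]
        rw [e2]
        exact hpt)
    have hIPI := h2 n r0 𝒢 L R e _ H Φ hS Θ (θ j1) hΘm (fun x => ⟨(hΘ0 x).le, (hΘb x).2⟩)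
    have hball := IGE_ball 𝒢 R hR hRr N hN θ
    have hball' : ∫⁻ x in Metric.ball (0 : En n) R, ENNReal.ofReal (Real.sqrt (Θ x) ^ (n + 1) *
        (Real.sqrt (𝒢.G x).det)⁻¹) =
        ENNReal.ofReal (∑ j ∈ Finset.Icc 1 N, Real.sqrt (θ j) ^ (n + 1) * vv 𝒢 R N j) := by
      rw [hΘdef]
      exact hball
    rw [hball'] at hIPI
    have hvv : ∀ j ∈ Finset.Icc 1 N, 0 ≤ vv 𝒢 R N j := by
      intro j hj
      rw [Finset.mem_Icc] at hj
      refine sub_nonneg.2 (IGE_VV_mono 𝒢 _ _ (mul_le_mul_of_nonneg_right (by linarith) hh.le) ?_)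
      calc (j : ℝ) * (R / N) ≤ N * (R / N) := by
            apply mul_le_mul_of_nonneg_right _ hh.le
            exact_mod_cast hj.2
        _ = R := hNh
        _ < r0 := hRr
    have hcK : 0 ≤ cK n := by
      unfold cK X0
      apply div_nonneg _ (pow_nonneg Real.pi_pos.le _)
      apply intervalIntegral.integral_nonneg (by positivity)
      intro t ht
      exact pow_nonneg (Real.sin_nonneg_of_nonneg_of_le_pi ht.1
        (by linarith [ht.2, Real.pi_pos])) _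
    refine IGE_final (∫⁻ z in SL 𝒢 e R, ENNReal.ofReal (sp 𝒢 z ^ n * Θ z.1) * TT Φ R Θ z ^ n)
      n N (cK n) (∑ j ∈ Finset.Icc 1 N, Real.sqrt (θ j) ^ (n + 1) * vv 𝒢 R N j) (1 - e ^ n)
      (kap n) (kap (n - 1)) hen hcK θ (IGE_P 𝒢 Φ e R N)
      (fun k => (IGE_M 𝒢 Φ e R Θ N k).toReal) (vv 𝒢 R N) A B hAN hkn1 (by omega) ?_ ?_ ?_ ?_ ?_ ?_
    · intro j
      unfold IGE_P
      rw [hHit0, inter_empty, empty_inter]
      simp
    · intro j k hj hjN hjk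
      exact IGE_P_full h4 hS N k j hj hjN hjk
    · exact habs
    · exact hIPI
    · exact Finset.sum_nonneg fun j hj => mul_nonneg (pow_nonneg (Real.sqrt_nonneg _) _) (hvv j hj)
    · refine Finset.sum_nonneg fun k hk => mul_nonneg (hB k) ?_
      rw [Finset.mem_Ico] at hk
      have := hMmono (k - 1) (by omega)
      rw [Nat.sub_add_cancel hk.1] at this
      exact sub_nonneg.2 this

end Pool.Agent.CRO
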