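import Pool.Agent.helper58.CRO.SpecI

open scoped Manifold ContDiff Topology ENNReal
open MeasureTheory Set

noncomputable section

namespace Pool.Agent.CRO

/-- The inner integral of the pair counting formula. -/
def IPI_F {n : ℕ} {r0 : ℝ} (𝒢 : NChart n r0) (R : ℝ) (Φ : ℝ → PS n → PS n) (w : En n → ℝ≥0∞)
    (z : PS n) : ℝ≥0∞ :=
  ∫⁻ v in {v | 0 < v ∧ Stay Φ R z v},
    ENNReal.ofReal (sp 𝒢 z ^ n * EE 𝒢 Φ z v / v) * w z.1 * w (Φ v z).1

theorem IPI_meas (h5 : IME_stmt) {n : ℕ} {r0 : ℝ} {𝒢 : NChart n r0} {L R e r1 : ℝ}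
    {H : PS n → ℝ} {Φ : ℝ → PS n → PS n} (hS : Std 𝒢 L R e r1 H Φ) (w : En n → ℝ≥0∞)
    (hw : Measurable w) : Measurable ((SL 𝒢 e R).indicator (IPI_F 𝒢 R Φ w)) := by
  classical
  obtain ⟨hSt, hSL, hsp, -, -, -, hEE⟩ := h5 n r0 𝒢 L R e r1 H Φ hS
  have hcont := hS.fl.cont
  set S : Set (PS n × ℝ) := {q | q.1 ∈ SL 𝒢 e R ∧ Stay Φ R q.1 q.2} with hSdef
  set T : Set (PS n × ℝ) := {q | q.1 ∈ SL 𝒢 e R ∧ Stay Φ R q.1 q.2} ∩ {q | 0 < q.2} with hTdef
  have hSo : IsOpen S := (hSL.preimage continuous_fst).inter hSt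
  have hTm : MeasurableSet T :=
    hSo.measurableSet.inter (isOpen_lt continuous_const continuous_snd).measurableSet
  set G : PS n × ℝ → ℝ≥0∞ := T.indicator (fun q =>
    ENNReal.ofReal (((SL 𝒢 e R).indicator (sp 𝒢) q.1) ^ n *
      (S.indicator (fun q : PS n × ℝ => EE 𝒢 Φ q.1 q.2) q) / q.2) * w q.1.1 * w (Φ q.2 q.1).1)
    with hG
  have hfl : Continuous (fun q : PS n × ℝ => Φ q.2 q.1) :=
    hcont.comp (continuous_snd.prodMk continuous_fst)
  have hGm : Measurable G := by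
    apply Measurable.indicator _ hTm
    apply Measurable.mul
    · apply Measurable.mul
      · apply ENNReal.measurable_ofReal.comp
        exact (((hsp.comp measurable_fst).pow_const n).mul hEE).div measurable_snd
      · exact hw.comp (measurable_fst.comp measurable_fst)
    · exact hw.comp (measurable_fst.comp hfl.measurable)
  have hlast : Measurable (fun z : PS n => ∫⁻ v, G (z, v)) := hGm.lintegral_prod_right'
  have e : (SL 𝒢 e R).indicator (IPI_F 𝒢 R Φ w) = fun z : PS n => ∫⁻ v, G (z, v) := by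
    funext z
    by_cases hz : z ∈ SL 𝒢 e R
    · rw [indicator_of_mem hz, IPI_F]
      have hms : MeasurableSet {v : ℝ | 0 < v ∧ Stay Φ R z v} := by
        have h1 : IsOpen {v : ℝ | Stay Φ R z v} :=
          hSt.preimage (continuous_const.prodMk continuous_id)
        exact (isOpen_Ioi.inter h1).measurableSet
      rw [← lintegral_indicator hms]
      congr 1
      funext v
      by_cases hv : v ∈ {v : ℝ | 0 < v ∧ Stay Φ R z v}
      · have hvT : (z, v) ∈ T := ⟨⟨hz, hv.2⟩, hv.1⟩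
        have hvS : (z, v) ∈ S := ⟨hz, hv.2⟩
        rw [indicator_of_mem hv, hG, indicator_of_mem hvT]
        simp only
        rw [indicator_of_mem hz, indicator_of_mem hvS]
      · have hvT : (z, v) ∉ T := fun h => hv ⟨h.2, h.1.2⟩
        rw [indicator_of_notMem hv, hG, indicator_of_notMem hvT]
    · rw [indicator_of_notMem hz]
      have : ∀ v, G (z, v) = 0 := by
        intro v
        have hvT : (z, v) ∉ T := fun h => hz h.1.1
        rw [hG, indicator_of_notMem hvT]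
      simp [this]
  rw [e]
  exact hlast

theorem IPI (h1 : IPR_stmt) (h2 : IPK_stmt) (h3 : IMT_stmt) (h4 : INV_stmt) (h5 : IME_stmt)
    (h6 : IWN_stmt) : IPI_stmt := by
  classical
  intro n r0 𝒢 L R e r1 H Φ hS θ C hθ hθC
  have hn2 := hS.n2
  obtain ⟨hSt, hSL, hsp, -, -, hTTm, hEE⟩ := h5 n r0 𝒢 L R e r1 H Φ hS
  have hcont := hS.fl.cont
  set w : En n → ℝ≥0∞ := fun x => ENNReal.ofReal (Real.sqrt (θ x) ^ (n + 1)) with hw
  have hwm : Measurable w := ENNReal.measurable_ofReal.comp (hθ.sqrt.pow_const _)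
  have hFm := IPI_meas h5 hS w hwm
  have hIPR := h1 n r0 𝒢 L R e r1 H Φ hS w hwm
  have hTm : Measurable (TT Φ R θ) := hTTm θ hθ
  set F := IPI_F 𝒢 R Φ w with hF
  have hIPR' : ∫⁻ z in SL 𝒢 e R, F z ≤ ENNReal.ofReal ((1 - e ^ n) / n) *
      (∫⁻ x in Metric.ball (0 : En n) R, w x * ENNReal.ofReal (Real.sqrt (𝒢.G x).det)⁻¹) ^ 2 :=
    hIPR
  -- mass transport
  have hmt := h3 n r0 𝒢 L R e r1 H Φ hS
    (fun z z' => F z * (TT Φ R θ z)⁻¹ * ENNReal.ofReal (θ z'.1)) (by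
      have hq : Measurable (fun q : PS n × PS n =>
          ((SL 𝒢 e R).indicator F q.1) * (TT Φ R θ q.1)⁻¹ *
            ((SL 𝒢 e R).indicator (fun z' : PS n => ENNReal.ofReal (θ z'.1)) q.2)) := by
        apply Measurable.mul
        · exact (hFm.comp measurable_fst).mul (hTm.comp measurable_fst).inv
        · have hg : Measurable ((SL 𝒢 e R).indicator (fun z' : PS n => ENNReal.ofReal (θ z'.1))) :=
            Measurable.indicator (ENNReal.measurable_ofReal.comp (hθ.comp measurable_fst))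
              hSL.measurableSet
          exact hg.comp measurable_snd
      have eq : ((SL 𝒢 e R ×ˢ SL 𝒢 e R).indicator (fun q : PS n × PS n =>
          F q.1 * (TT Φ R θ q.1)⁻¹ * ENNReal.ofReal (θ q.2.1))) = (fun q : PS n × PS n =>
          ((SL 𝒢 e R).indicator F q.1) * (TT Φ R θ q.1)⁻¹ *
            ((SL 𝒢 e R).indicator (fun z' : PS n => ENNReal.ofReal (θ z'.1)) q.2)) := by
        funext q
        by_cases ha : q.1 ∈ SL 𝒢 e R
        · by_cases hb : q.2 ∈ SL 𝒢 e R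
          · have hq' : q ∈ SL 𝒢 e R ×ˢ SL 𝒢 e R := ⟨ha, hb⟩
            rw [indicator_of_mem hq', indicator_of_mem ha, indicator_of_mem hb]
          · have hq' : q ∉ SL 𝒢 e R ×ˢ SL 𝒢 e R := fun h => hb h.2
            rw [indicator_of_notMem hq', indicator_of_notMem hb, mul_zero]
        · have hq' : q ∉ SL 𝒢 e R ×ˢ SL 𝒢 e R := fun h => ha h.1
          rw [indicator_of_notMem hq', indicator_of_notMem ha, zero_mul, zero_mul]
      rw [eq]
      exact hq)
  -- the left side of the mass transport formula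
  have hleft : ∫⁻ z in SL 𝒢 e R, ∫⁻ u in {u | Stay Φ R z u},
      F z * (TT Φ R θ z)⁻¹ * ENNReal.ofReal (θ (Φ u z).1) ≤ ∫⁻ z in SL 𝒢 e R, F z := by
    refine lintegral_mono fun z => ?_
    have hm : Measurable (fun u : ℝ => ENNReal.ofReal (θ (Φ u z).1)) := by
      apply ENNReal.measurable_ofReal.comp
      apply hθ.comp
      have : Continuous (fun u : ℝ => Φ u z) := hcont.comp (continuous_id.prodMk continuous_const)
      exact measurable_fst.comp this.measurable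
    rw [lintegral_const_mul _ hm, mul_assoc]
    calc F z * ((TT Φ R θ z)⁻¹ * TT Φ R θ z) ≤ F z * 1 := by
          gcongr
          exact ENNReal.inv_mul_le_one _
      _ = F z := mul_one _
  -- the right side
  have hright : ∫⁻ z in SL 𝒢 e R, ENNReal.ofReal (cK n) *
      (ENNReal.ofReal (sp 𝒢 z ^ n * θ z.1) * TT Φ R θ z ^ n) ≤
      ∫⁻ z in SL 𝒢 e R, ∫⁻ u in {u | Stay Φ R z u},
        F (Φ u z) * (TT Φ R θ (Φ u z))⁻¹ * ENNReal.ofReal (θ z.1) := by
    refine setLIntegral_mono' hSL.measurableSet fun z hz => ?_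
    obtain ⟨α, β, hα, hβ, hstay, -, -, -, -, -⟩ := h6 n r0 𝒢 L R e r1 H Φ hS z hz
    have hset : {u | Stay Φ R z u} = Ioo α β := by
      ext u
      exact hstay u
    by_cases hT0 : TT Φ R θ z = 0
    · rw [hT0, zero_pow (by omega), mul_zero, mul_zero]
      exact zero_le
    have hTtop : TT Φ R θ z ≠ ⊤ := by
      unfold TT
      rw [hset]
      refine ne_top_of_le_ne_top (b := ENNReal.ofReal C * volume (Ioo α β)) ?_ ?_
      · rw [Real.volume_Ioo]
        exact ENNReal.mul_ne_top ENNReal.ofReal_ne_top ENNReal.ofReal_ne_top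
      · rw [← setLIntegral_const]
        exact lintegral_mono fun u => ENNReal.ofReal_le_ofReal (hθC _).2
    have hspn : 0 ≤ sp 𝒢 z ^ n := pow_nonneg (Real.sqrt_nonneg _) n
    have hrw : ∫⁻ u in {u | Stay Φ R z u},
        F (Φ u z) * (TT Φ R θ (Φ u z))⁻¹ * ENNReal.ofReal (θ z.1)
        = (ENNReal.ofReal (sp 𝒢 z ^ n) *
          ∫⁻ u in {u | Stay Φ R z u}, ∫⁻ v in {v | 0 < v ∧ Stay Φ R (Φ u z) v},
            ENNReal.ofReal (EE 𝒢 Φ (Φ u z) v / v) *
              ENNReal.ofReal (Real.sqrt (θ (Φ u z).1) ^ (n + 1)) *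
              ENNReal.ofReal (Real.sqrt (θ (Φ v (Φ u z)).1) ^ (n + 1))) *
          ((TT Φ R θ z)⁻¹ * ENNReal.ofReal (θ z.1)) := by
      have hc1 : (TT Φ R θ z)⁻¹ * ENNReal.ofReal (θ z.1) ≠ ⊤ :=
        ENNReal.mul_ne_top (ENNReal.inv_ne_top.2 hT0) ENNReal.ofReal_ne_top
      rw [← lintegral_const_mul' _ _ ENNReal.ofReal_ne_top, ← lintegral_mul_const' _ _ hc1]
      have hmset : MeasurableSet {u | Stay Φ R z u} := by rw [hset]; exact measurableSet_Ioo
      refine setLIntegral_congr_fun hmset fun u hu => ?_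
      have hu' : Stay Φ R z u := hu
      obtain ⟨-, hspu, -, hTTu, -⟩ := h4 n r0 𝒢 L R e r1 H Φ hS z hz u hu'
      have hFu : F (Φ u z) = ENNReal.ofReal (sp 𝒢 z ^ n) *
          ∫⁻ v in {v | 0 < v ∧ Stay Φ R (Φ u z) v},
            ENNReal.ofReal (EE 𝒢 Φ (Φ u z) v / v) *
              ENNReal.ofReal (Real.sqrt (θ (Φ u z).1) ^ (n + 1)) *
              ENNReal.ofReal (Real.sqrt (θ (Φ v (Φ u z)).1) ^ (n + 1)) := by
        rw [hF, IPI_F, ← lintegral_const_mul' _ _ ENNReal.ofReal_ne_top]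
        congr 1
        funext v
        rw [hspu, mul_div_assoc, ENNReal.ofReal_mul hspn, hw]
        simp only [mul_assoc]
      change F (Φ u z) * (TT Φ R θ (Φ u z))⁻¹ * ENNReal.ofReal (θ z.1) = _
      rw [hTTu θ, hFu, mul_assoc _ (TT Φ R θ z)⁻¹]
    rw [hrw]
    have hIPK := h2 n r0 𝒢 L R e r1 H Φ hS θ C hθ hθC z hz
    calc ENNReal.ofReal (cK n) * (ENNReal.ofReal (sp 𝒢 z ^ n * θ z.1) * TT Φ R θ z ^ n)
        = (ENNReal.ofReal (sp 𝒢 z ^ n) * (ENNReal.ofReal (cK n) * TT Φ R θ z ^ (n + 1))) *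
          ((TT Φ R θ z)⁻¹ * ENNReal.ofReal (θ z.1)) := by
          rw [ENNReal.ofReal_mul hspn, pow_succ]
          have hTT1 : TT Φ R θ z * (TT Φ R θ z)⁻¹ = 1 := ENNReal.mul_inv_cancel hT0 hTtop
          calc ENNReal.ofReal (cK n) * (ENNReal.ofReal (sp 𝒢 z ^ n) * ENNReal.ofReal (θ z.1) *
                TT Φ R θ z ^ n)
              = ENNReal.ofReal (cK n) * (ENNReal.ofReal (sp 𝒢 z ^ n) * ENNReal.ofReal (θ z.1) *
                TT Φ R θ z ^ n) * 1 := by rw [mul_one]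
            _ = ENNReal.ofReal (cK n) * (ENNReal.ofReal (sp 𝒢 z ^ n) * ENNReal.ofReal (θ z.1) *
                TT Φ R θ z ^ n) * (TT Φ R θ z * (TT Φ R θ z)⁻¹) := by rw [hTT1]
            _ = _ := by ring
      _ ≤ _ := by gcongr
  -- conclusion
  have hmain : ENNReal.ofReal (cK n) * ∫⁻ z in SL 𝒢 e R,
      ENNReal.ofReal (sp 𝒢 z ^ n * θ z.1) * TT Φ R θ z ^ n ≤
      ENNReal.ofReal ((1 - e ^ n) / n) *
        (∫⁻ x in Metric.ball (0 : En n) R, w x * ENNReal.ofReal (Real.sqrt (𝒢.G x).det)⁻¹) ^ 2 := by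
    rw [← lintegral_const_mul' _ _ ENNReal.ofReal_ne_top]
    exact hright.trans ((hmt.symm.le.trans hleft).trans hIPR')
  have hn0 : (0 : ℝ) < n := by
    have : 0 < n := by omega
    exact_mod_cast this
  have eI : ∫⁻ x in Metric.ball (0 : En n) R,
      ENNReal.ofReal (Real.sqrt (θ x) ^ (n + 1) * (Real.sqrt (𝒢.G x).det)⁻¹)
      = ∫⁻ x in Metric.ball (0 : En n) R, w x * ENNReal.ofReal (Real.sqrt (𝒢.G x).det)⁻¹ := by
    congr 1
    funext x
    rw [ENNReal.ofReal_mul (pow_nonneg (Real.sqrt_nonneg _) _)]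
  rw [eI, ENNReal.ofReal_mul hn0.le, mul_assoc]
  calc ENNReal.ofReal (n : ℝ) * (ENNReal.ofReal (cK n) * ∫⁻ z in SL 𝒢 e R,
        ENNReal.ofReal (sp 𝒢 z ^ n * θ z.1) * TT Φ R θ z ^ n)
      ≤ ENNReal.ofReal (n : ℝ) * (ENNReal.ofReal ((1 - e ^ n) / n) *
        (∫⁻ x in Metric.ball (0 : En n) R, w x * ENNReal.ofReal (Real.sqrt (𝒢.G x).det)⁻¹) ^ 2) := by
        gcongr
    _ = ENNReal.ofReal (1 - e ^ n) *
        (∫⁻ x in Metric.ball (0 : En n) R, w x * ENNReal.ofReal (Real.sqrt (𝒢.G x).det)⁻¹) ^ 2 := by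
        rw [← mul_assoc, ← ENNReal.ofReal_mul hn0.le]
        congr 2
        field_simp

end Pool.Agent.CRO
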