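import Pool.Agent.helper58.CRO.SpecI

open scoped Manifold ContDiff Topology ENNReal
open MeasureTheory Set

noncomputable section

namespace Pool.Agent.CRO

theorem IPK_shift (g : ℝ → ℝ≥0∞) (c a b : ℝ) :
    ∫⁻ u in Ioo (c + a) (c + b), g u = ∫⁻ s in Ioo a b, g (c + s) := by
  rw [← lintegral_indicator measurableSet_Ioo, ← lintegral_indicator measurableSet_Ioo,
    ← lintegral_add_left_eq_self _ c]
  congr 1
  ext s
  by_cases h : s ∈ Ioo a b
  · have h' : c + s ∈ Ioo (c + a) (c + b) := ⟨by linarith [h.1], by linarith [h.2]⟩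
    rw [indicator_of_mem h, indicator_of_mem h']
  · have h' : c + s ∉ Ioo (c + a) (c + b) := fun h' => h ⟨by linarith [h'.1], by linarith [h'.2]⟩
    rw [indicator_of_notMem h, indicator_of_notMem h']

theorem IPK_cK_nonneg (n : ℕ) : 0 ≤ cK n := by
  unfold cK X0
  apply div_nonneg _ (pow_nonneg Real.pi_pos.le _)
  apply intervalIntegral.integral_nonneg (by positivity)
  intro t ht
  exact pow_nonneg (Real.sin_nonneg_of_nonneg_of_le_pi ht.1 (by linarith [ht.2, Real.pi_pos])) _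

theorem IPK_limit (f : ℝ → ℝ≥0∞) (b : ℝ) (hb : 0 < b) (c K : ℝ≥0∞) (hc : c ≠ ⊤) (m : ℕ)
    (h : ∀ a, 0 < a → a < b → c * (∫⁻ u in Ioo (-a) a, f u) ^ m ≤ K) :
    c * (∫⁻ u in Ioo (-b) b, f u) ^ m ≤ K := by
  set a : ℕ → ℝ := fun i => b - b / ((i : ℝ) + 2) with ha
  have ha0 : ∀ i, 0 < a i := by
    intro i
    have h2 : (0 : ℝ) < (i : ℝ) + 2 := by positivity
    have : b / ((i : ℝ) + 2) < b := by
      rw [div_lt_iff₀ h2]
      nlinarith [(Nat.cast_nonneg i : (0 : ℝ) ≤ i)]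
    simp only [ha]
    linarith
  have hab : ∀ i, a i < b := by
    intro i
    have h2 : (0 : ℝ) < (i : ℝ) + 2 := by positivity
    have : 0 < b / ((i : ℝ) + 2) := div_pos hb h2
    simp only [ha]
    linarith
  have hmono : Monotone a := by
    intro i j hij
    have h2 : (0 : ℝ) < (i : ℝ) + 2 := by positivity
    have h3 : (i : ℝ) + 2 ≤ (j : ℝ) + 2 := by
      have : (i : ℝ) ≤ j := by exact_mod_cast hij
      linarith
    have := div_le_div_of_nonneg_left hb.le h2 h3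
    simp only [ha]
    linarith
  have hsm : Monotone (fun i => Ioo (-(a i)) (a i)) := by
    intro i j hij
    exact Ioo_subset_Ioo (neg_le_neg (hmono hij)) (hmono hij)
  have hU : (⋃ i, Ioo (-(a i)) (a i)) = Ioo (-b) b := by
    apply Subset.antisymm
    · exact iUnion_subset fun i => Ioo_subset_Ioo (neg_le_neg (hab i).le) (hab i).le
    · intro x hx
      have hx' : |x| < b := abs_lt.2 hx
      obtain ⟨i, hi⟩ := exists_nat_gt (b / (b - |x|))
      have hpos : 0 < b - |x| := by linarith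
      rw [div_lt_iff₀ hpos] at hi
      have h2 : (0 : ℝ) < (i : ℝ) + 2 := by positivity
      have h3 : b / ((i : ℝ) + 2) < b - |x| := by
        rw [div_lt_iff₀ h2]
        nlinarith
      refine mem_iUnion.2 ⟨i, abs_lt.1 ?_⟩
      simp only [ha]
      linarith
  have h1 : Filter.Tendsto (fun i => ∫⁻ u in Ioo (-(a i)) (a i), f u) Filter.atTop
      (𝓝 (∫⁻ u in Ioo (-b) b, f u)) := by
    rw [← hU, setLIntegral_iUnion_of_directed f hsm.directed_le]
    exact tendsto_atTop_iSup fun i j hij => lintegral_mono_set (hsm hij)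
  have h2 : Filter.Tendsto (fun i => c * (∫⁻ u in Ioo (-(a i)) (a i), f u) ^ m) Filter.atTop
      (𝓝 (c * (∫⁻ u in Ioo (-b) b, f u) ^ m)) :=
    ENNReal.Tendsto.const_mul (((ENNReal.continuous_pow m).tendsto _).comp h1) (Or.inr hc)
  exact le_of_tendsto' h2 fun i => h (a i) (ha0 i) (hab i)

theorem IPK (h1 : IWN_stmt) (h2 : INV_stmt) (h3 : HKQ_stmt) (h4 : HK2_stmt) : IPK_stmt := by
  intro n r0 𝒢 L R e r1 H Φ hS θ C hθ hθC z hz
  obtain ⟨α, β, hα, hβ, hstay, hlen, hL, -, -, -⟩ := h1 n r0 𝒢 L R e r1 H Φ hS z hz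
  set u0 : ℝ := (α + β) / 2 with hu0
  set b : ℝ := (β - α) / 2 with hb
  have hb0 : 0 < b := by rw [hb]; linarith
  have hu0s : Stay Φ R z u0 := (hstay u0).2 ⟨by rw [hu0]; linarith, by rw [hu0]; linarith⟩
  obtain ⟨hz', -, hst', -, -⟩ := h2 n r0 𝒢 L R e r1 H Φ hS z hz u0 hu0s
  set z' := Φ u0 z with hz'def
  have hstay' : ∀ v, Stay Φ R z' v ↔ v ∈ Ioo (-b) b := by
    intro v
    rw [hst', hstay]
    constructor
    · rintro ⟨x1, x2⟩
      constructor <;> (simp only [hb, hu0] at *; linarith)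
    · rintro ⟨x1, x2⟩
      constructor <;> (simp only [hb, hu0] at *; linarith)
  have hadd := hS.fl.add
  have hcont := hS.fl.cont
  have hsetz : {u | Stay Φ R z u} = Ioo (u0 + -b) (u0 + b) := by
    ext u
    rw [mem_setOf_eq, hstay]
    have e1 : u0 + -b = α := by rw [hu0, hb]; ring
    have e2 : u0 + b = β := by rw [hu0, hb]; ring
    rw [e1, e2]
  have hflow : ∀ s, Φ (u0 + s) z = Φ s z' := by
    intro s
    rw [add_comm, hadd]
  -- both sides in terms of the middle point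
  have hTT : TT Φ R θ z = ∫⁻ s in Ioo (-b) b, ENNReal.ofReal (θ (Φ s z').1) := by
    unfold TT
    rw [hsetz, IPK_shift]
    simp only [hflow]
  rw [hTT, hsetz, IPK_shift]
  simp only [hflow]
  refine IPK_limit _ b hb0 _ _ ENNReal.ofReal_ne_top (n + 1) ?_
  intro a ha0 hab
  -- the function psi
  set k : ℝ := (b - a) / 2 with hk
  have hk0 : 0 < k := by rw [hk]; linarith
  have hsp : e < sp 𝒢 z' ∧ sp 𝒢 z' < 1 := hz'.2
  have hnn : 0 ≤ nrm2 𝒢 z' := by
    by_contra hneg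
    push Not at hneg
    have : sp 𝒢 z' = 0 := Real.sqrt_eq_zero_of_nonpos hneg.le
    rw [this] at hsp
    linarith [hS.epos, hsp.1]
  have hsq : sp 𝒢 z' ^ 2 = nrm2 𝒢 z' := Real.sq_sqrt hnn
  have hsp0 : 0 < sp 𝒢 z' := hS.epos.trans hsp.1
  have hn0 : 0 < nrm2 𝒢 z' := by rw [← hsq]; positivity
  have hn1 : nrm2 𝒢 z' < 1 := by rw [← hsq]; nlinarith [hsp.2]
  obtain ⟨ψ, hψc, hψ0, hψ⟩ := h3 n r0 r1 L 𝒢 H Φ hS.n2 hS.fl hS.ex z' a k ha0 hk0
    (by simp only [hk, hb] at *; linarith) hn0 hn1 (by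
      intro u hu
      have hu' : u ∈ Ioo (-b) b := ⟨by
        have := hu.1
        simp only [hk] at this
        linarith, lt_of_le_of_lt hu.2 hab⟩
      have := (hstay' u).2 hu' u right_mem_uIcc
      exact this.trans hS.Rr)
  have hθ'm : Measurable (fun u : ℝ => θ (Φ u z').1) := by
    apply hθ.comp
    apply Measurable.fst
    have : Continuous (fun u : ℝ => Φ u z') := hcont.comp (continuous_id.prodMk continuous_const)
    exact this.measurable
  have hK := h4 n hS.n2 a C (fun u => θ (Φ u z').1) ψ ha0 hθ'm (fun u => hθC _) hψc hψ0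
  have hint : IntegrableOn (fun u : ℝ => θ (Φ u z').1) (Ioo (-a) a) := by
    apply Integrable.mono' (g := fun _ => C) (integrable_const C) hθ'm.aestronglyMeasurable
    filter_upwards with u
    rw [Real.norm_eq_abs, abs_of_nonneg (hθC _).1]
    exact (hθC _).2
  have hI : ENNReal.ofReal (∫ u in (-a)..a, θ (Φ u z').1)
      = ∫⁻ u in Ioo (-a) a, ENNReal.ofReal (θ (Φ u z').1) := by
    rw [intervalIntegral.integral_of_le (by linarith), integral_Ioc_eq_integral_Ioo,
      ofReal_integral_eq_lintegral_ofReal hint]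
    filter_upwards with u
    exact (hθC _).1
  have hI0 : 0 ≤ ∫ u in (-a)..a, θ (Φ u z').1 :=
    intervalIntegral.integral_nonneg (by linarith) fun u _ => (hθC _).1
  rw [ENNReal.ofReal_mul (IPK_cK_nonneg n), ENNReal.ofReal_pow hI0, hI] at hK
  refine hK.trans ?_
  refine le_trans ?_ (lintegral_mono_set (Ioo_subset_Ioo (neg_le_neg hab.le) hab.le))
  refine setLIntegral_mono' measurableSet_Ioo fun s hs => ?_
  have hst : Stay Φ R z' s := (hstay' s).2 ⟨by linarith [hs.1], by linarith [hs.2]⟩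
  obtain ⟨-, -, hss, -, -⟩ := h2 n r0 𝒢 L R e r1 H Φ hS z' hz' s hst
  have hsub : Ioo (0 : ℝ) (a - s) ⊆ {v | 0 < v ∧ Stay Φ R (Φ s z') v} := by
    intro v hv
    refine ⟨hv.1, (hss v).2 ((hstay' _).2 ⟨?_, ?_⟩)⟩
    · linarith [hv.1, hs.1]
    · linarith [hv.2]
  refine le_trans ?_ (lintegral_mono_set hsub)
  have e1 : Ioo s a = Ioo (s + 0) (s + (a - s)) := by rw [add_zero, add_sub_cancel]
  rw [e1, IPK_shift]
  refine setLIntegral_mono' measurableSet_Ioo fun v hv => ?_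
  have e2 : Φ (s + v) z' = Φ v (Φ s z') := by rw [add_comm, hadd]
  rw [e2]
  have h5 := hψ s (s + v) hs.1.le (by linarith [hv.1]) (by linarith [hv.2])
  rw [add_sub_cancel_left] at h5
  have hE : 0 ≤ EE 𝒢 Φ (Φ s z') v / v :=
    div_nonneg (div_nonneg (abs_nonneg _) (Real.sqrt_nonneg _)) hv.1.le
  rw [← ENNReal.ofReal_mul hE, ← ENNReal.ofReal_mul (mul_nonneg hE (pow_nonneg (Real.sqrt_nonneg _) _))]
  apply ENNReal.ofReal_le_ofReal
  rw [Real.sqrt_mul (hθC _).1, mul_pow (Real.sqrt _) (Real.sqrt _) (n + 1),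
    mul_assoc (EE 𝒢 Φ (Φ s z') v / v)]
  exact mul_le_mul_of_nonneg_right h5
    (mul_nonneg (pow_nonneg (Real.sqrt_nonneg _) _) (pow_nonneg (Real.sqrt_nonneg _) _))

end Pool.Agent.CRO
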