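import Pool.Agent.helper58.CRO.SpecI
import Pool.Agent.helper79.CRO.Lib

open scoped Manifold ContDiff Topology ENNReal
open MeasureTheory Set

noncomputable section

namespace Pool.Agent.CRO

/-- The pairs counted. -/
def IPR_T {n : ℕ} {r0 : ℝ} (𝒢 : NChart n r0) (e R : ℝ) (Φ : ℝ → PS n → PS n) :
    Set (PS n × ℝ) := {q | q.1 ∈ SL 𝒢 e R ∧ Stay Φ R q.1 q.2} ∩ {q | 0 < q.2}

/-- The integrand of the pair counting formula, extended by zero. -/
def IPR_G {n : ℕ} {r0 : ℝ} (𝒢 : NChart n r0) (e R : ℝ) (Φ : ℝ → PS n → PS n) (w : En n → ℝ≥0∞)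
    (q : PS n × ℝ) : ℝ≥0∞ :=
  (IPR_T 𝒢 e R Φ).indicator (fun q =>
    ENNReal.ofReal (sp 𝒢 q.1 ^ n * EE 𝒢 Φ q.1 q.2 / q.2) * w q.1.1 * w (Φ q.2 q.1).1) q

theorem IPR_T_meas (h5 : IME_stmt) {n : ℕ} {r0 : ℝ} {𝒢 : NChart n r0} {L R e r1 : ℝ}
    {H : PS n → ℝ} {Φ : ℝ → PS n → PS n} (hS : Std 𝒢 L R e r1 H Φ) :
    MeasurableSet (IPR_T 𝒢 e R Φ) := by
  obtain ⟨hSt, hSL, -, -, -, -, -⟩ := h5 n r0 𝒢 L R e r1 H Φ hS
  have hSo : IsOpen {q : PS n × ℝ | q.1 ∈ SL 𝒢 e R ∧ Stay Φ R q.1 q.2} :=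
    (hSL.preimage continuous_fst).inter hSt
  exact hSo.measurableSet.inter (isOpen_lt continuous_const continuous_snd).measurableSet

theorem IPR_G_meas (h5 : IME_stmt) {n : ℕ} {r0 : ℝ} {𝒢 : NChart n r0} {L R e r1 : ℝ}
    {H : PS n → ℝ} {Φ : ℝ → PS n → PS n} (hS : Std 𝒢 L R e r1 H Φ) (w : En n → ℝ≥0∞)
    (hw : Measurable w) : Measurable (IPR_G 𝒢 e R Φ w) := by
  classical
  have hTm := IPR_T_meas h5 hS
  obtain ⟨hSt, hSL, hsp, -, -, -, hEE⟩ := h5 n r0 𝒢 L R e r1 H Φ hS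
  have hcont := hS.fl.cont
  set S : Set (PS n × ℝ) := {q | q.1 ∈ SL 𝒢 e R ∧ Stay Φ R q.1 q.2} with hSdef
  have hfl : Continuous (fun q : PS n × ℝ => Φ q.2 q.1) :=
    hcont.comp (continuous_snd.prodMk continuous_fst)
  have e1 : IPR_G 𝒢 e R Φ w = (IPR_T 𝒢 e R Φ).indicator (fun q =>
    ENNReal.ofReal (((SL 𝒢 e R).indicator (sp 𝒢) q.1) ^ n *
      (S.indicator (fun q : PS n × ℝ => EE 𝒢 Φ q.1 q.2) q) / q.2) * w q.1.1 * w (Φ q.2 q.1).1) := by
    funext q
    unfold IPR_G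
    by_cases hq : q ∈ IPR_T 𝒢 e R Φ
    · have hq' : q ∈ S := hq.1
      have hq'' : q.1 ∈ SL 𝒢 e R := hq.1.1
      rw [indicator_of_mem hq, indicator_of_mem hq, indicator_of_mem hq', indicator_of_mem hq'']
    · rw [indicator_of_notMem hq, indicator_of_notMem hq]
  rw [e1]
  apply Measurable.indicator _ hTm
  apply Measurable.mul
  · apply Measurable.mul
    · apply ENNReal.measurable_ofReal.comp
      exact (((hsp.comp measurable_fst).pow_const n).mul hEE).div measurable_snd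
    · exact hw.comp (measurable_fst.comp measurable_fst)
  · exact hw.comp (measurable_fst.comp hfl.measurable)

theorem IPR_lhs (h5 : IME_stmt) {n : ℕ} {r0 : ℝ} {𝒢 : NChart n r0} {L R e r1 : ℝ}
    {H : PS n → ℝ} {Φ : ℝ → PS n → PS n} (hS : Std 𝒢 L R e r1 H Φ) (w : En n → ℝ≥0∞)
    (hw : Measurable w) :
    ∫⁻ z in SL 𝒢 e R, ∫⁻ v in {v | 0 < v ∧ Stay Φ R z v},
      ENNReal.ofReal (sp 𝒢 z ^ n * EE 𝒢 Φ z v / v) * w z.1 * w (Φ v z).1 =
    ∫⁻ x : En n, ∫⁻ p : En n, ∫⁻ v : ℝ, IPR_G 𝒢 e R Φ w ((x, p), v) := by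
  have hG := IPR_G_meas h5 hS w hw
  obtain ⟨hSt, hSL, -, -, -, -, -⟩ := h5 n r0 𝒢 L R e r1 H Φ hS
  have hGm : Measurable (fun z : PS n => ∫⁻ v, IPR_G 𝒢 e R Φ w (z, v)) := hG.lintegral_prod_right'
  have e1 : ∫⁻ z in SL 𝒢 e R, ∫⁻ v in {v | 0 < v ∧ Stay Φ R z v},
      ENNReal.ofReal (sp 𝒢 z ^ n * EE 𝒢 Φ z v / v) * w z.1 * w (Φ v z).1 =
      ∫⁻ z : PS n, ∫⁻ v, IPR_G 𝒢 e R Φ w (z, v) := by
    rw [← lintegral_indicator hSL.measurableSet]
    congr 1
    funext z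
    by_cases hz : z ∈ SL 𝒢 e R
    · rw [indicator_of_mem hz]
      have hms : MeasurableSet {v : ℝ | 0 < v ∧ Stay Φ R z v} := by
        have h1 : IsOpen {v : ℝ | Stay Φ R z v} :=
          hSt.preimage (continuous_const.prodMk continuous_id)
        exact (isOpen_Ioi.inter h1).measurableSet
      rw [← lintegral_indicator hms]
      congr 1
      funext v
      unfold IPR_G
      by_cases hv : v ∈ {v : ℝ | 0 < v ∧ Stay Φ R z v}
      · have hvT : (z, v) ∈ IPR_T 𝒢 e R Φ := ⟨⟨hz, hv.2⟩, hv.1⟩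
        rw [indicator_of_mem hv, indicator_of_mem hvT]
      · have hvT : (z, v) ∉ IPR_T 𝒢 e R Φ := fun h => hv ⟨h.2, h.1.2⟩
        rw [indicator_of_notMem hv, indicator_of_notMem hvT]
    · rw [indicator_of_notMem hz]
      have : ∀ v, IPR_G 𝒢 e R Φ w (z, v) = 0 := by
        intro v
        have hvT : (z, v) ∉ IPR_T 𝒢 e R Φ := fun h => hz h.1.1
        unfold IPR_G
        rw [indicator_of_notMem hvT]
      simp [this]
  rw [e1, show (volume : Measure (PS n)) = (volume : Measure (En n)).prod volume from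
    Measure.volume_eq_prod _ _, lintegral_prod _ hGm.aemeasurable]

/-- the integral over the length -/
theorem IPR_int (n : ℕ) (hn : 1 ≤ n) (a e : ℝ) (ha : 0 ≤ a) (he : 0 < e) (he1 : e < 1) :
    ∫⁻ v in Ioo a (a / e), ENNReal.ofReal (a ^ n / v ^ (n + 1)) ≤
      ENNReal.ofReal ((1 - e ^ n) / n) := by
  rcases ha.eq_or_lt with h0 | h0
  · rw [← h0, zero_div, Ioo_self]
    simp
  have hn0 : (n : ℝ) ≠ 0 := by
    have : 0 < n := hn
    exact_mod_cast this.ne'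
  have hle : a ≤ a / e := by
    rw [le_div_iff₀ he]
    nlinarith
  have hder : ∀ v ∈ uIcc a (a / e), HasDerivAt (fun v : ℝ => -(a ^ n / n) * (v ^ n)⁻¹)
      (a ^ n / v ^ (n + 1)) v := by
    intro v hv
    rw [uIcc_of_le hle] at hv
    have hv0 : 0 < v := h0.trans_le hv.1
    have h1 := ((hasDerivAt_pow n v).inv (pow_ne_zero n hv0.ne')).const_mul (-(a ^ n / n))
    have h2 : -(a ^ n / n) * (-(n * v ^ (n - 1)) / (v ^ n) ^ 2) = a ^ n / v ^ (n + 1) := by
      obtain ⟨m, rfl⟩ : ∃ m, n = m + 1 := ⟨n - 1, by omega⟩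
      have hv' := hv0.ne'
      simp only [Nat.add_sub_cancel]
      field_simp
      ring
    rw [h2] at h1
    exact h1
  have hcont : ContinuousOn (fun v : ℝ => a ^ n / v ^ (n + 1)) (uIcc a (a / e)) := by
    rw [uIcc_of_le hle]
    refine continuousOn_const.div (continuousOn_pow _) fun v hv => ?_
    exact pow_ne_zero _ (h0.trans_le hv.1).ne'
  have hint : IntervalIntegrable (fun v : ℝ => a ^ n / v ^ (n + 1)) volume a (a / e) :=
    hcont.intervalIntegrable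
  have hval := intervalIntegral.integral_eq_sub_of_hasDerivAt hder hint
  have hI : IntegrableOn (fun v : ℝ => a ^ n / v ^ (n + 1)) (Ioo a (a / e)) :=
    ((intervalIntegrable_iff_integrableOn_Ioo_of_le hle).1 hint)
  rw [← ofReal_integral_eq_lintegral_ofReal hI]
  · rw [← integral_Ioc_eq_integral_Ioo, ← intervalIntegral.integral_of_le hle, hval]
    apply ENNReal.ofReal_le_ofReal
    apply le_of_eq
    have ha' := h0.ne'
    have he' := he.ne'
    rw [div_pow]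
    field_simp
    ring
  · rw [Filter.EventuallyLE, ae_restrict_iff' measurableSet_Ioo]
    filter_upwards with v hv
    exact div_nonneg (pow_nonneg ha _) (pow_nonneg (ha.trans hv.1.le) _)

theorem IPR_sp_smul {n : ℕ} {r0 : ℝ} (𝒢 : NChart n r0) (x q : En n) (c : ℝ) (hc : 0 ≤ c) :
    sp 𝒢 (x, c • q) = c * sp 𝒢 (x, q) := by
  unfold sp nrm2
  simp only [map_smul, real_inner_smul_left, real_inner_smul_right]
  rw [← mul_assoc, Real.sqrt_mul (mul_nonneg hc hc), Real.sqrt_mul_self hc]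

/-- orbits in terms of the exponential map -/
theorem IPR_orbit (h1 : IWN_stmt) (h4 : HVA_stmt) {n : ℕ} {r0 : ℝ} {𝒢 : NChart n r0}
    {L R e r1 : ℝ} {H : PS n → ℝ} {Φ : ℝ → PS n → PS n} (hS : Std 𝒢 L R e r1 H Φ)
    (x : En n) (Ex : En n → En n) (D : Set (En n))
    (hexp : ∀ (c : ℝ → PS n) (T : ℝ), 0 ≤ T → T < L → (c 0).1 = x → nrm2 𝒢 (c 0) < 1 →
      (∀ t ∈ Icc 0 T, ‖(c t).1‖ < r0 ∧ HasDerivAt c (hvf (ham 𝒢) (c t)) t) →
      T • (c 0).2 ∈ D ∧ (c T).1 = Ex (T • (c 0).2))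
    (p : En n) (v : ℝ) (hz : (x, p) ∈ SL 𝒢 e R) (hv : 0 < v) (hst : Stay Φ R (x, p) v) :
    v • p ∈ D ∧ (Φ v (x, p)).1 = Ex (v • p) := by
  obtain ⟨α, β, hα, hβ, hstay, -, hL, -, -, hnr⟩ := h1 n r0 𝒢 L R e r1 H Φ hS (x, p) hz
  have hΦ := hS.fl
  have hvI := (hstay v).1 hst
  have hsp : sp 𝒢 (x, p) < 1 := hz.2.2
  have hn1 : nrm2 𝒢 (x, p) < 1 := by
    by_contra hcon
    push Not at hcon
    have : (1 : ℝ) ≤ sp 𝒢 (x, p) := Real.one_le_sqrt.2 hcon
    linarith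
  have h3 := hexp (fun s => Φ s (x, p)) v hv.le (by linarith [hvI.2])
    (by show (Φ 0 (x, p)).1 = x; rw [hΦ.zero])
    (by show nrm2 𝒢 (Φ 0 (x, p)) < 1; rw [hΦ.zero]; exact hn1)
    (by
      intro s hs
      have hsR : ‖(Φ s (x, p)).1‖ < R := by
        apply hst
        rw [uIcc_of_le hv.le]
        exact hs
      refine ⟨(hsR.trans hS.Rr).trans hΦ.r1lt, ?_⟩
      have h4' : nrm2 𝒢 (Φ s (x, p)) = nrm2 𝒢 (x, p) :=
        (hnr s ⟨by linarith [hs.1], by linarith [hs.2, hvI.2]⟩).2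
      have h5 := (h4 n r0 r1 𝒢 H Φ hΦ (Φ s (x, p)) (hsR.trans hS.Rr) (by rw [h4']; linarith)).2.1
      have h6 := hΦ.ode (x, p) s
      show HasDerivAt (fun s => Φ s (x, p)) (hvf (ham 𝒢) (Φ s (x, p))) s
      rw [← h5]
      exact h6)
  rw [hΦ.zero] at h3
  exact h3

/-- the Jacobian of the flow in terms of the exponential map -/
theorem IPR_det (h1 : IWN_stmt) (h2 : IME_stmt) (h4 : HVA_stmt) {n : ℕ} {r0 : ℝ}
    {𝒢 : NChart n r0} {L R e r1 : ℝ} {H : PS n → ℝ} {Φ : ℝ → PS n → PS n}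
    (hS : Std 𝒢 L R e r1 H Φ) (x : En n) (Ex : En n → En n) (D : Set (En n))
    (hder : ∀ q ∈ D, ∃ A : En n ≃L[ℝ] En n, HasFDerivAt Ex (A : En n →L[ℝ] En n) q)
    (hexp : ∀ (c : ℝ → PS n) (T : ℝ), 0 ≤ T → T < L → (c 0).1 = x → nrm2 𝒢 (c 0) < 1 →
      (∀ t ∈ Icc 0 T, ‖(c t).1‖ < r0 ∧ HasDerivAt c (hvf (ham 𝒢) (c t)) t) →
      T • (c 0).2 ∈ D ∧ (c T).1 = Ex (T • (c 0).2))
    (p : En n) (v : ℝ) (hz : (x, p) ∈ SL 𝒢 e R) (hv : 0 < v) (hst : Stay Φ R (x, p) v) :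
    (BB Φ v (x, p)).det = v ^ n * (fderiv ℝ Ex (v • p)).det := by
  obtain ⟨hSt, hSL, -, -, -, -, -⟩ := h2 n r0 𝒢 L R e r1 H Φ hS
  have hcont : Continuous fun p : En n => ((x, p) : PS n) := by fun_prop
  have e1 : ∀ᶠ p' in 𝓝 p, (x, p') ∈ SL 𝒢 e R :=
    hcont.continuousAt.eventually_mem (hSL.mem_nhds hz)
  have e2 : ∀ᶠ p' in 𝓝 p, Stay Φ R (x, p') v := by
    have hc2 : Continuous fun p : En n => (((x, p) : PS n), v) := by fun_prop
    have h5 : (((x, p) : PS n), v) ∈ {q : PS n × ℝ | Stay Φ R q.1 q.2} := hst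
    exact hc2.continuousAt.eventually_mem (hSt.mem_nhds h5)
  have e3 : ∀ᶠ p' in 𝓝 p, (Φ v (x, p')).1 = Ex (v • p') := by
    filter_upwards [e1, e2] with p' hp' hbp
    exact (IPR_orbit h1 h4 hS x Ex D hexp p' v hp' hv hbp).2
  have hmem : v • p ∈ D := (IPR_orbit h1 h4 hS x Ex D hexp p v hz hv hst).1
  obtain ⟨A, hA⟩ := hder _ hmem
  have d1 : HasFDerivAt (fun p : En n => (Φ v (x, p)).1) (BB Φ v (x, p)) p := by
    have h3 : HasFDerivAt (Φ v) (fderiv ℝ (Φ v) (x, p)) ((x, p) : PS n) :=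
      (hS.fl.diff v (x, p)).hasFDerivAt
    have h4 : HasFDerivAt (fun p : En n => ((x, p) : PS n))
        (ContinuousLinearMap.inr ℝ (En n) (En n)) p := hasFDerivAt_prodMk_right x p
    have h5 := h3.comp p h4
    exact (ContinuousLinearMap.fst ℝ (En n) (En n)).hasFDerivAt.comp p h5
  have d2 : HasFDerivAt (fun p : En n => Ex (v • p)) ((A : En n →L[ℝ] En n).comp
      (v • ContinuousLinearMap.id ℝ (En n))) p := by
    have h4 : HasFDerivAt (fun p : En n => v • p) (v • ContinuousLinearMap.id ℝ (En n)) p :=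
      (hasFDerivAt_id p).const_smul v
    exact HasFDerivAt.comp p hA h4
  have d3 : BB Φ v (x, p) = (A : En n →L[ℝ] En n).comp (v • ContinuousLinearMap.id ℝ (En n)) :=
    d1.unique (d2.congr_of_eventuallyEq e3)
  have d4 : BB Φ v (x, p) = v • (A : En n →L[ℝ] En n) := by
    rw [d3]
    ext u i
    simp
  rw [hA.fderiv, d4]
  show LinearMap.det ((v • (A : En n →L[ℝ] En n) : En n →L[ℝ] En n) : En n →ₗ[ℝ] En n) = _
  rw [ContinuousLinearMap.toLinearMap_smul, LinearMap.det_smul, finrank_euclideanSpace_fin]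

/-- rescaling -/
theorem IPR_scale {n : ℕ} (f : En n → ℝ≥0∞) (v : ℝ) (hv : 0 < v) (hf : Measurable f) :
    ∫⁻ p, f p = ∫⁻ q, ENNReal.ofReal (v ^ n)⁻¹ * f (v⁻¹ • q) := by
  have hm : Measurable (fun q : En n => f (v⁻¹ • q)) := hf.comp (measurable_const_smul v⁻¹)
  have h1 := Measure.map_addHaar_smul (volume : Measure (En n)) hv.ne'
  have h2 : ∫⁻ p, f p = ∫⁻ q, f (v⁻¹ • q) ∂(Measure.map (v • ·) (volume : Measure (En n))) := by
    rw [lintegral_map hm (measurable_const_smul v)]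
    congr 1
    funext p
    rw [smul_smul, inv_mul_cancel₀ hv.ne', one_smul]
  rw [h2, h1, lintegral_smul_measure, lintegral_const_mul _ hm, finrank_euclideanSpace_fin,
    abs_of_nonneg (inv_nonneg.2 (pow_nonneg hv.le n)), smul_eq_mul]

/-- the pointwise bound -/
theorem IPR_pt (h1 : IWN_stmt) (h2 : IME_stmt) (h4 : HVA_stmt) {n : ℕ} {r0 : ℝ}
    {𝒢 : NChart n r0} {L R e r1 : ℝ} {H : PS n → ℝ} {Φ : ℝ → PS n → PS n}
    (hS : Std 𝒢 L R e r1 H Φ) (w : En n → ℝ≥0∞) (x : En n) (hx : ‖x‖ < R) (Ex : En n → En n)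
    (D : Set (En n))
    (hder : ∀ q ∈ D, ∃ A : En n ≃L[ℝ] En n, HasFDerivAt Ex (A : En n →L[ℝ] En n) q)
    (hexp : ∀ (c : ℝ → PS n) (T : ℝ), 0 ≤ T → T < L → (c 0).1 = x → nrm2 𝒢 (c 0) < 1 →
      (∀ t ∈ Icc 0 T, ‖(c t).1‖ < r0 ∧ HasDerivAt c (hvf (ham 𝒢) (c t)) t) →
      T • (c 0).2 ∈ D ∧ (c T).1 = Ex (T • (c 0).2))
    (v : ℝ) (hv : 0 < v) (q : En n) :
    ENNReal.ofReal (v ^ n)⁻¹ * IPR_G 𝒢 e R Φ w ((x, v⁻¹ • q), v) ≤
      (D ∩ Ex ⁻¹' Metric.ball 0 R).indicator (fun q => ENNReal.ofReal |(fderiv ℝ Ex q).det| *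
        (w (Ex q) * ENNReal.ofReal (H79L_f 𝒢 (Ex q)))) q *
      ((w x * ENNReal.ofReal (H79L_f 𝒢 x)) *
        {r : En n × ℝ | sp 𝒢 (x, r.1) < r.2 ∧ r.2 < sp 𝒢 (x, r.1) / e}.indicator
          (fun r => ENNReal.ofReal (sp 𝒢 (x, r.1) ^ n / r.2 ^ (n + 1))) (q, v)) := by
  by_cases hT : ((x, v⁻¹ • q), v) ∈ IPR_T 𝒢 e R Φ
  · obtain ⟨⟨hz, hst⟩, -⟩ := hT
    have hz : (x, v⁻¹ • q) ∈ SL 𝒢 e R := hz
    have hst : Stay Φ R (x, v⁻¹ • q) v := hst
    have hvq : v • (v⁻¹ • q) = q := by rw [smul_smul, mul_inv_cancel₀ hv.ne', one_smul]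
    obtain ⟨hqD, hqE⟩ := IPR_orbit h1 h4 hS x Ex D hexp _ v hz hv hst
    have hdet := IPR_det h1 h2 h4 hS x Ex D hder hexp _ v hz hv hst
    rw [hvq] at hqD hqE hdet
    have hER : ‖Ex q‖ < R := by
      rw [← hqE]
      exact hst v right_mem_uIcc
    have hqD' : q ∈ D ∩ Ex ⁻¹' Metric.ball 0 R := ⟨hqD, mem_ball_zero_iff.2 hER⟩
    have hspq : sp 𝒢 (x, v⁻¹ • q) = v⁻¹ * sp 𝒢 (x, q) :=
      IPR_sp_smul 𝒢 x q v⁻¹ (inv_nonneg.2 hv.le)
    have hs1 : e < v⁻¹ * sp 𝒢 (x, q) := by rw [← hspq]; exact hz.2.1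
    have hs2 : v⁻¹ * sp 𝒢 (x, q) < 1 := by rw [← hspq]; exact hz.2.2
    have hM : (q, v) ∈ {r : En n × ℝ | sp 𝒢 (x, r.1) < r.2 ∧ r.2 < sp 𝒢 (x, r.1) / e} := by
      refine ⟨?_, ?_⟩
      · show sp 𝒢 (x, q) < v
        rw [inv_mul_lt_iff₀ hv, mul_one] at hs2
        exact hs2
      · show v < sp 𝒢 (x, q) / e
        rw [lt_div_iff₀ hS.epos]
        rw [lt_inv_mul_iff₀ hv] at hs1
        exact hs1
    have hG : IPR_G 𝒢 e R Φ w ((x, v⁻¹ • q), v) =
        ENNReal.ofReal (sp 𝒢 (x, v⁻¹ • q) ^ n * EE 𝒢 Φ (x, v⁻¹ • q) v / v) * w x *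
          w (Φ v (x, v⁻¹ • q)).1 := by
      unfold IPR_G
      have hT' : ((x, v⁻¹ • q), v) ∈ IPR_T 𝒢 e R Φ := ⟨⟨hz, hst⟩, hv⟩
      rw [indicator_of_mem hT']
    rw [hG, indicator_of_mem hqD', indicator_of_mem hM, hqE, hspq]
    simp only
    have hxr : ‖x‖ < r0 := (hx.trans hS.Rr).trans hS.fl.r1lt
    have hEE : EE 𝒢 Φ (x, v⁻¹ • q) v = v ^ n * |(fderiv ℝ Ex q).det| * H79L_f 𝒢 x *
        H79L_f 𝒢 (Ex q) := by
      unfold EE H79L_f
      rw [hdet, hqE, abs_mul, abs_of_nonneg (pow_nonneg hv.le n),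
        Real.sqrt_mul (H79L_det_pos _ (𝒢.pos x hxr)).le, div_eq_mul_inv, mul_inv]
      ring
    rw [hEE]
    have hfx := H79L_f_nonneg 𝒢 x
    have hfy := H79L_f_nonneg 𝒢 (Ex q)
    have hd : 0 ≤ |(fderiv ℝ Ex q).det| := abs_nonneg _
    have ha : 0 ≤ sp 𝒢 (x, q) := Real.sqrt_nonneg _
    have hA : 0 ≤ sp 𝒢 (x, q) ^ n / v ^ (n + 1) := by positivity
    generalize sp 𝒢 (x, q) = a at *
    generalize |(fderiv ℝ Ex q).det| = d at *
    generalize H79L_f 𝒢 x = fx at *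
    generalize H79L_f 𝒢 (Ex q) = fy at *
    generalize w x = wx at *
    generalize w (Ex q) = wy at *
    have e1 : ENNReal.ofReal (v ^ n)⁻¹ *
        (ENNReal.ofReal ((v⁻¹ * a) ^ n * (v ^ n * d * fx * fy) / v) * wx * wy)
        = ENNReal.ofReal (d * fy * fx * (a ^ n / v ^ (n + 1))) * wx * wy := by
      rw [← mul_assoc, ← mul_assoc, ← ENNReal.ofReal_mul (by positivity)]
      congr 3
      have hv' := hv.ne'
      rw [mul_pow, inv_pow]
      field_simp
      ring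
    have e2 : ENNReal.ofReal d * (wy * ENNReal.ofReal fy) *
        (wx * ENNReal.ofReal fx * ENNReal.ofReal (a ^ n / v ^ (n + 1)))
        = ENNReal.ofReal (d * fy * fx * (a ^ n / v ^ (n + 1))) * wx * wy := by
      rw [ENNReal.ofReal_mul (by positivity), ENNReal.ofReal_mul (by positivity),
        ENNReal.ofReal_mul hd]
      ring
    rw [e1, e2]
  · unfold IPR_G
    rw [indicator_of_notMem hT, mul_zero]
    exact zero_le

attribute [local irreducible] IPR_G H79L_f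

/-- the integral over one fibre -/
theorem IPR_slice (h1 : IWN_stmt) (h2 : IME_stmt) (h4 : HVA_stmt) {n : ℕ} {r0 : ℝ}
    {𝒢 : NChart n r0} {L R e r1 : ℝ} {H : PS n → ℝ} {Φ : ℝ → PS n → PS n}
    (hS : Std 𝒢 L R e r1 H Φ) (w : En n → ℝ≥0∞) (hw : Measurable w) (x : En n) (hx : ‖x‖ < R) :
    ∫⁻ p : En n, ∫⁻ v : ℝ, IPR_G 𝒢 e R Φ w ((x, p), v) ≤
      (∫⁻ y in Metric.ball (0 : En n) R, w y * ENNReal.ofReal (H79L_f 𝒢 y)) *
        ((w x * ENNReal.ofReal (H79L_f 𝒢 x)) * ENNReal.ofReal ((1 - e ^ n) / n)) := by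
  classical
  have hRr : R < r0 := hS.Rr.trans hS.fl.r1lt
  have hxr : ‖x‖ < r0 := hx.trans hRr
  obtain ⟨Ex, D, hDo, hinj, hder, hexp⟩ := hS.ex x hxr
  have hGm := IPR_G_meas h2 hS w hw
  have hExc : ContinuousOn Ex D := fun q hq => by
    obtain ⟨A, hA⟩ := hder q hq
    exact hA.continuousAt.continuousWithinAt
  set D' := D ∩ Ex ⁻¹' Metric.ball 0 R with hD'
  have hD'o : IsOpen D' := hExc.isOpen_inter_preimage hDo Metric.isOpen_ball
  have hball : MeasurableSet (Metric.ball (0 : En n) R) := measurableSet_ball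
  -- measurability
  have hfm : Measurable ((Metric.ball (0 : En n) R).piecewise (H79L_f 𝒢) (fun _ => 0)) :=
    ContinuousOn.measurable_piecewise ((H79L_f_cont 𝒢).mono (Metric.ball_subset_ball hRr.le))
      continuousOn_const hball
  have hExm : Measurable (D.piecewise Ex (fun _ => 0)) :=
    ContinuousOn.measurable_piecewise hExc continuousOn_const hDo.measurableSet
  set K : En n → ℝ≥0∞ := D'.indicator (fun q => ENNReal.ofReal |(fderiv ℝ Ex q).det| *
        (w (Ex q) * ENNReal.ofReal (H79L_f 𝒢 (Ex q)))) with hK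
  have hKm : Measurable K := by
    have e1 : K = D'.indicator (fun q => ENNReal.ofReal |(fderiv ℝ Ex q).det| *
        (w (D.piecewise Ex (fun _ => 0) q) * ENNReal.ofReal
          ((Metric.ball (0 : En n) R).piecewise (H79L_f 𝒢) (fun _ => 0)
            (D.piecewise Ex (fun _ => 0) q)))) := by
      rw [hK]
      funext q
      by_cases hq : q ∈ D'
      · rw [indicator_of_mem hq, indicator_of_mem hq, piecewise_eq_of_mem D _ _ hq.1,
          piecewise_eq_of_mem (Metric.ball (0 : En n) R) _ _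
            (show Ex q ∈ Metric.ball (0 : En n) R from hq.2)]
      · rw [indicator_of_notMem hq, indicator_of_notMem hq]
    rw [e1]
    apply Measurable.indicator _ hD'o.measurableSet
    apply Measurable.mul
    · apply ENNReal.measurable_ofReal.comp
      exact (ContinuousLinearMap.continuous_det.measurable.comp (measurable_fderiv ℝ Ex)).abs
    · apply Measurable.mul
      · exact hw.comp hExm
      · exact ENNReal.measurable_ofReal.comp (hfm.comp hExm)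
  have hspc : Continuous (fun q : En n => sp 𝒢 (x, q)) := by
    unfold sp nrm2
    simp only
    fun_prop
  set M : En n × ℝ → ℝ≥0∞ :=
    {r : En n × ℝ | sp 𝒢 (x, r.1) < r.2 ∧ r.2 < sp 𝒢 (x, r.1) / e}.indicator
      (fun r => ENNReal.ofReal (sp 𝒢 (x, r.1) ^ n / r.2 ^ (n + 1))) with hM
  have hMm : Measurable M := by
    have hc1 : Continuous (fun r : En n × ℝ => sp 𝒢 (x, r.1)) := hspc.comp continuous_fst
    have ho : IsOpen {r : En n × ℝ | sp 𝒢 (x, r.1) < r.2 ∧ r.2 < sp 𝒢 (x, r.1) / e} :=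
      (isOpen_lt hc1 continuous_snd).inter (isOpen_lt continuous_snd (hc1.div_const e))
    apply Measurable.indicator _ ho.measurableSet
    exact ENNReal.measurable_ofReal.comp
      ((hc1.measurable.pow_const n).div (measurable_snd.pow_const (n + 1)))
  set c0 : ℝ≥0∞ := w x * ENNReal.ofReal (H79L_f 𝒢 x) with hc0
  have hKM : Measurable (fun r : En n × ℝ => K r.1 * (c0 * M r)) :=
    (hKm.comp measurable_fst).mul (hMm.const_mul c0)
  have hMint : ∀ q, ∫⁻ v, M (q, v) ≤ ENNReal.ofReal ((1 - e ^ n) / n) := by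
    intro q
    have e1 : ∫⁻ v, M (q, v) = ∫⁻ v in Ioo (sp 𝒢 (x, q)) (sp 𝒢 (x, q) / e),
        ENNReal.ofReal (sp 𝒢 (x, q) ^ n / v ^ (n + 1)) := by
      rw [← lintegral_indicator measurableSet_Ioo]
      rfl
    rw [e1]
    exact IPR_int n (by have := hS.n2; omega) _ e (Real.sqrt_nonneg _) hS.epos hS.elt
  have hGx : Measurable (fun r : En n × ℝ => IPR_G 𝒢 e R Φ w ((x, r.1), r.2)) := by
    apply hGm.comp
    exact (measurable_const.prodMk measurable_fst).prodMk measurable_snd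
  calc ∫⁻ p : En n, ∫⁻ v : ℝ, IPR_G 𝒢 e R Φ w ((x, p), v)
      = ∫⁻ v : ℝ, ∫⁻ p : En n, IPR_G 𝒢 e R Φ w ((x, p), v) :=
        lintegral_lintegral_swap hGx.aemeasurable
    _ ≤ ∫⁻ v : ℝ, ∫⁻ q : En n, K q * (c0 * M (q, v)) := by
        refine lintegral_mono fun v => ?_
        by_cases hv : 0 < v
        · have hm1 : Measurable (fun p : En n => IPR_G 𝒢 e R Φ w ((x, p), v)) := by
            apply hGm.comp
            exact (measurable_const.prodMk measurable_id).prodMk measurable_const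
          refine (IPR_scale (fun p : En n => IPR_G 𝒢 e R Φ w ((x, p), v)) v hv hm1).le.trans ?_
          refine lintegral_mono fun q => ?_
          have hpt := IPR_pt h1 h2 h4 hS w x hx Ex D hder hexp v hv q
          rw [← hD', ← hK, ← hM, ← hc0] at hpt
          exact hpt
        · have h0 : ∀ p : En n, IPR_G 𝒢 e R Φ w ((x, p), v) = 0 := by
            intro p
            unfold IPR_G
            exact indicator_of_notMem (fun h => hv h.2) _
          simp only [h0, lintegral_zero]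
          exact zero_le
    _ = ∫⁻ q : En n, ∫⁻ v : ℝ, K q * (c0 * M (q, v)) :=
        (lintegral_lintegral_swap (f := fun (q : En n) (v : ℝ) => K q * (c0 * M (q, v)))
          hKM.aemeasurable).symm
    _ ≤ ∫⁻ q : En n, K q * (c0 * ENNReal.ofReal ((1 - e ^ n) / n)) := by
        refine lintegral_mono fun q => ?_
        have hm2 : Measurable (fun v : ℝ => M (q, v)) := hMm.comp (measurable_const.prodMk measurable_id)
        rw [lintegral_const_mul _ (hm2.const_mul c0), lintegral_const_mul _ hm2]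
        gcongr
        exact hMint q
    _ = (∫⁻ q : En n, K q) * (c0 * ENNReal.ofReal ((1 - e ^ n) / n)) :=
        lintegral_mul_const _ hKm
    _ ≤ _ := by
        refine mul_le_mul' ?_ le_rfl
        rw [hK, lintegral_indicator hD'o.measurableSet,
          ← lintegral_image_eq_lintegral_abs_det_fderiv_mul volume hD'o.measurableSet
            (fun q hq => by
              obtain ⟨A, hA⟩ := hder q hq.1
              rw [← hA.fderiv] at hA
              exact hA.hasFDerivWithinAt) (hinj.mono inter_subset_left)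
            (fun y => w y * ENNReal.ofReal (H79L_f 𝒢 y))]
        apply lintegral_mono_set
        rintro y ⟨q, hq, rfl⟩
        exact hq.2

theorem IPR (h1 : IWN_stmt) (h2 : IME_stmt) (h3 : NRG_stmt) (h4 : HVA_stmt) : IPR_stmt := by
  classical
  intro n r0 𝒢 L R e r1 H Φ hS w hw
  have hRr : R < r0 := hS.Rr.trans hS.fl.r1lt
  rw [IPR_lhs h2 hS w hw]
  have hball : MeasurableSet (Metric.ball (0 : En n) R) := measurableSet_ball
  have hfm : Measurable ((Metric.ball (0 : En n) R).piecewise (H79L_f 𝒢) (fun _ => 0)) :=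
    ContinuousOn.measurable_piecewise ((H79L_f_cont 𝒢).mono (Metric.ball_subset_ball hRr.le))
      continuousOn_const hball
  set I := ∫⁻ y in Metric.ball (0 : En n) R, w y * ENNReal.ofReal (H79L_f 𝒢 y) with hI
  set c := ENNReal.ofReal ((1 - e ^ n) / n) with hc
  have hIe : ∫⁻ x in Metric.ball (0 : En n) R, w x * ENNReal.ofReal (Real.sqrt (𝒢.G x).det)⁻¹ = I := by
    rw [hI]
    unfold H79L_f
    rfl
  rw [hIe]
  have hstep : ∀ x : En n, ∫⁻ p : En n, ∫⁻ v : ℝ, IPR_G 𝒢 e R Φ w ((x, p), v) ≤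
      (Metric.ball (0 : En n) R).indicator (fun x => w x * ENNReal.ofReal
        ((Metric.ball (0 : En n) R).piecewise (H79L_f 𝒢) (fun _ => 0) x)) x * (I * c) := by
    intro x
    by_cases hx : x ∈ Metric.ball (0 : En n) R
    · have hx' : ‖x‖ < R := mem_ball_zero_iff.1 hx
      rw [indicator_of_mem hx, piecewise_eq_of_mem _ _ _ hx]
      refine (IPR_slice h1 h2 h4 hS w hw x hx').trans (le_of_eq ?_)
      rw [← hI, ← hc]
      ring
    · have h0 : ∀ (p : En n) (v : ℝ), IPR_G 𝒢 e R Φ w ((x, p), v) = 0 := by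
        intro p v
        unfold IPR_G
        refine indicator_of_notMem (fun h => hx ?_) _
        exact mem_ball_zero_iff.2 h.1.1.1
      simp only [h0, lintegral_zero]
      exact zero_le
  refine (lintegral_mono hstep).trans (le_of_eq ?_)
  have hm : Measurable ((Metric.ball (0 : En n) R).indicator (fun x => w x * ENNReal.ofReal
        ((Metric.ball (0 : En n) R).piecewise (H79L_f 𝒢) (fun _ => 0) x))) :=
    (hw.mul (ENNReal.measurable_ofReal.comp hfm)).indicator hball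
  rw [lintegral_mul_const _ hm, lintegral_indicator hball]
  have e1 : ∫⁻ x in Metric.ball (0 : En n) R, w x * ENNReal.ofReal
        ((Metric.ball (0 : En n) R).piecewise (H79L_f 𝒢) (fun _ => 0) x) = I := by
    rw [hI]
    refine setLIntegral_congr_fun hball fun x hx => ?_
    rw [piecewise_eq_of_mem (Metric.ball (0 : En n) R) _ _ hx]
  rw [e1]
  ring

end Pool.Agent.CRO
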